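import Mathlib

set_option autoImplicit false

namespace Pool.Agent.LibHaar

open Finset MeasureTheory Real

/-- sign of the last binary digit -/
def sg (i : ℕ) : ℝ := if i % 2 = 0 then 1 else -1

theorem sg_even (k : ℕ) : sg (2 * k) = 1 := by simp [sg]
theorem sg_odd (k : ℕ) : sg (2 * k + 1) = -1 := by simp [sg]

/-- partial sums of a Haar expansion with coefficients `d` -/
def Hs (d : ℕ → ℕ → ℝ) : ℕ → ℕ → ℝ
  | 0, _ => 0
  | N + 1, i => Hs d N (i / 2) + sg i * d N (i / 2)

theorem sum_range_two_mul (f : ℕ → ℝ) (n : ℕ) :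
    ∑ i ∈ range (2 * n), f i = ∑ k ∈ range n, (f (2 * k) + f (2 * k + 1)) := by
  induction n with
  | zero => simp
  | succ n ih =>
    rw [show 2 * (n + 1) = 2 * n + 1 + 1 by ring, sum_range_succ, sum_range_succ, ih,
      sum_range_succ]
    ring

theorem Hs_even (d : ℕ → ℕ → ℝ) (N k : ℕ) : Hs d (N + 1) (2 * k) = Hs d N k + d N k := by
  simp [Hs, sg_even]

theorem Hs_odd (d : ℕ → ℕ → ℝ) (N k : ℕ) : Hs d (N + 1) (2 * k + 1) = Hs d N k - d N k := by
  have : (2 * k + 1) / 2 = k := by omega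
  simp only [Hs, sg_odd, this]; ring

/-- the basic biconcave function, in the coordinates x, y (with u = x + y, v = x - y) -/
noncomputable def b1 (x y : ℝ) : ℝ := if |x| + |y| ≤ 1 then y ^ 2 - x ^ 2 else 1 - 2 * |x|

theorem b1_le_two (x y : ℝ) (h : |x - y| ≤ 1) : b1 x y ≤ y ^ 2 - x ^ 2 := by
  unfold b1
  split_ifs with h1
  · exact le_rfl
  · push Not at h1
    have h2 := abs_le.mp h
    rcases abs_cases x with ⟨hx, hx'⟩ | ⟨hx, hx'⟩ <;> rcases abs_cases y with ⟨hy, hy'⟩ | ⟨hy, hy'⟩ <;>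
      rw [hx, hy] at h1 <;> rw [hx] <;> nlinarith

theorem b1_le_one (x y : ℝ) : b1 x y ≤ 1 - 2 * |x| := by
  unfold b1
  split_ifs with h1
  · have hx := abs_nonneg x
    have hy := abs_nonneg y
    rw [← sq_abs x, ← sq_abs y]
    nlinarith
  · exact le_rfl

/-- concavity in the direction (1,1) -/
theorem b1_conc (x y a : ℝ) : b1 (x + a) (y + a) + b1 (x - a) (y - a) ≤ 2 * b1 x y := by
  by_cases hv : |x - y| ≤ 1
  · have e1 := b1_le_two (x + a) (y + a) (by rwa [show x + a - (y + a) = x - y by ring])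
    have e2 := b1_le_two (x - a) (y - a) (by rwa [show x - a - (y - a) = x - y by ring])
    have e3 := b1_le_one (x + a) (y + a)
    have e4 := b1_le_one (x - a) (y - a)
    have e5 : 2 * |x| ≤ |x + a| + |x - a| := by
      have := abs_add_le (x + a) (x - a)
      rw [show x + a + (x - a) = 2 * x by ring, abs_mul, abs_two] at this
      exact this
    have e6 : b1 x y = y ^ 2 - x ^ 2 ∨ b1 x y = 1 - 2 * |x| := by
      unfold b1; split_ifs; exacts [Or.inl rfl, Or.inr rfl]
    rcases e6 with h | h <;> rw [h]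
    · nlinarith
    · linarith
  · have e3 := b1_le_one (x + a) (y + a)
    have e4 := b1_le_one (x - a) (y - a)
    have e5 : 2 * |x| ≤ |x + a| + |x - a| := by
      have := abs_add_le (x + a) (x - a)
      rw [show x + a + (x - a) = 2 * x by ring, abs_mul, abs_two] at this
      exact this
    have e6 : b1 x y = 1 - 2 * |x| := by
      unfold b1
      rw [if_neg]
      intro h
      apply hv
      exact (abs_sub x y).trans h
    rw [e6]; linarith

theorem b1_symm (x y : ℝ) : b1 x (-y) = b1 x y := by simp [b1]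

theorem b1_conc' (x y a : ℝ) : b1 (x + a) (y - a) + b1 (x - a) (y + a) ≤ 2 * b1 x y := by
  have := b1_conc x (-y) a
  rw [b1_symm x y] at this
  rw [← b1_symm (x + a) (y - a), ← b1_symm (x - a) (y + a)]
  convert this using 3 <;> ring

/-- step inequality for a general function with the two concavity properties -/
theorem sum_step (B : ℝ → ℝ → ℝ) (h1 : ∀ x y a, B (x + a) (y + a) + B (x - a) (y - a) ≤ 2 * B x y)
    (h2 : ∀ x y a, B (x + a) (y - a) + B (x - a) (y + a) ≤ 2 * B x y) (h0 : B 0 0 ≤ 0)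
    (d e : ℕ → ℕ → ℝ) (hde : ∀ m k, |e m k| = |d m k|) (N : ℕ) :
    ∑ i ∈ range (2 ^ N), B (Hs d N i) (Hs e N i) ≤ 0 := by
  induction N with
  | zero => simpa [Hs] using h0
  | succ N ih =>
    rw [pow_succ, mul_comm, sum_range_two_mul]
    calc ∑ k ∈ range (2 ^ N), (B (Hs d (N + 1) (2 * k)) (Hs e (N + 1) (2 * k)) +
          B (Hs d (N + 1) (2 * k + 1)) (Hs e (N + 1) (2 * k + 1)))
        ≤ ∑ k ∈ range (2 ^ N), 2 * B (Hs d N k) (Hs e N k) := by
          refine sum_le_sum fun k _ => ?_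
          rw [Hs_even, Hs_even, Hs_odd, Hs_odd]
          rcases abs_eq_abs.mp (hde N k) with h | h
          · rw [h]; exact h1 _ _ _
          · rw [h, sub_neg_eq_add, ← sub_eq_add_neg]; exact h2 _ _ _
      _ = 2 * ∑ k ∈ range (2 ^ N), B (Hs d N k) (Hs e N k) := by rw [mul_sum]
      _ ≤ 0 := by linarith

end Pool.Agent.LibHaar
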