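import Mathlib
import Pool.Agent.LibHaar.Basic

set_option autoImplicit false

namespace Pool.Agent.LibHaar

open Finset MeasureTheory Real Set

/-- the L^p function -/
noncomputable def Up (p A B x y : ℝ) : ℝ := (|x| + |y|) ^ (p - 1) * (A * |y| - B * |x|)

theorem int_low (p : ℝ) (hp1 : 1 < p) (hp2 : p < 2) (x y : ℝ) :
    IntegrableOn (fun t : ℝ => t ^ (p - 1) * b1 (x / t) (y / t)) (Ioi 0) ∧
    ∫ t in Ioi (0 : ℝ), t ^ (p - 1) * b1 (x / t) (y / t) =
      Up p (2 / (p * (2 - p))) (2 / (p * (p - 1) * (2 - p))) x y := by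
  set M : ℝ := |x| + |y| with hM
  have hM0 : 0 ≤ M := by positivity
  rcases hM0.eq_or_lt with h0 | hMpos
  · have hx : x = 0 := by
      have := abs_nonneg x; have := abs_nonneg y
      exact abs_eq_zero.mp (by linarith)
    have hy : y = 0 := by
      have := abs_nonneg x; have := abs_nonneg y
      exact abs_eq_zero.mp (by linarith)
    subst hx; subst hy
    have hz : ∀ t : ℝ, t ^ (p - 1) * b1 (0 / t) (0 / t) = 0 := by
      intro t; simp [b1]
    simp_rw [hz]
    constructor
    · exact integrableOn_zero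
    · simp [Up]
  -- the two pieces
  have hIoc : EqOn (fun t : ℝ => t ^ (p - 1) * b1 (x / t) (y / t))
      (fun t => t ^ (p - 1) - 2 * |x| * t ^ (p - 2)) (Ioo 0 M) := by
    intro t ht
    have h1 : ¬ (|x / t| + |y / t| ≤ 1) := by
      rw [abs_div, abs_div, abs_of_pos ht.1, ← add_div, div_le_one ht.1, not_le]; exact ht.2
    simp only
    rw [b1, if_neg h1, abs_div, abs_of_pos ht.1]
    have : t ^ (p - 1) = t ^ (p - 2) * t := by
      rw [← Real.rpow_add_one ht.1.ne']; ring_nf
    rw [this]; have := ht.1.ne'; field_simp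
  have hIoi : EqOn (fun t : ℝ => t ^ (p - 1) * b1 (x / t) (y / t))
      (fun t => (y ^ 2 - x ^ 2) * t ^ (p - 3)) (Ici M) := by
    intro t ht
    have ht0 : 0 < t := lt_of_lt_of_le hMpos ht
    have h1 : |x / t| + |y / t| ≤ 1 := by
      rw [abs_div, abs_div, abs_of_pos ht0, ← add_div, div_le_one ht0]; exact ht
    simp only
    rw [b1, if_pos h1]
    have : t ^ (p - 1) = t ^ (p - 3) * t ^ 2 := by
      rw [← Real.rpow_natCast, ← Real.rpow_add ht0]; norm_num; ring_nf
    rw [this]; have := ht0.ne'; field_simp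
  have hII1 : IntervalIntegrable (fun t : ℝ => t ^ (p - 1)) volume 0 M :=
    intervalIntegral.intervalIntegrable_rpow' (by linarith)
  have hII2 : IntervalIntegrable (fun t : ℝ => 2 * |x| * t ^ (p - 2)) volume 0 M :=
    (intervalIntegral.intervalIntegrable_rpow' (by linarith)).const_mul _
  have hI1 : IntegrableOn (fun t : ℝ => t ^ (p - 1) - 2 * |x| * t ^ (p - 2)) (Ioo 0 M) := by
    have := hII1.sub hII2
    rwa [intervalIntegrable_iff_integrableOn_Ioo_of_le hM0] at this
  have hI2 : IntegrableOn (fun t : ℝ => (y ^ 2 - x ^ 2) * t ^ (p - 3)) (Ici M) := by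
    rw [integrableOn_Ici_iff_integrableOn_Ioi]
    exact (integrableOn_Ioi_rpow_of_lt (by linarith) hMpos).const_mul _
  have hJ1 := hI1.congr_fun hIoc.symm measurableSet_Ioo
  have hJ2 := hI2.congr_fun hIoi.symm measurableSet_Ici
  have hun : Ioi (0 : ℝ) = Ioo 0 M ∪ Ici M := (Ioo_union_Ici_eq_Ioi hMpos).symm
  have hdisj : Disjoint (Ioo (0 : ℝ) M) (Ici M) := by
    rw [Set.disjoint_left]; intro z hz hz'
    exact absurd hz.2 (not_lt.mpr hz')
  constructor
  · rw [hun]; exact hJ1.union hJ2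
  · rw [hun, setIntegral_union hdisj measurableSet_Ici hJ1 hJ2,
      setIntegral_congr_fun measurableSet_Ioo hIoc, setIntegral_congr_fun measurableSet_Ici hIoi]
    have e1 : ∫ t in Ioo 0 M, (t ^ (p - 1) - 2 * |x| * t ^ (p - 2)) =
        M ^ p / p - 2 * |x| * (M ^ (p - 1) / (p - 1)) := by
      rw [← integral_Ioc_eq_integral_Ioo, ← intervalIntegral.integral_of_le hM0,
        intervalIntegral.integral_sub hII1 hII2, intervalIntegral.integral_const_mul,
        integral_rpow (Or.inl (by linarith)), integral_rpow (Or.inl (by linarith))]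
      rw [Real.zero_rpow (by linarith), Real.zero_rpow (by linarith)]
      ring_nf
    have e2 : ∫ t in Ici M, (y ^ 2 - x ^ 2) * t ^ (p - 3) =
        (y ^ 2 - x ^ 2) * (M ^ (p - 2) / (2 - p)) := by
      rw [integral_Ici_eq_integral_Ioi, integral_const_mul,
        integral_Ioi_rpow_of_lt (by linarith) hMpos]
      congr 1
      rw [show p - 3 + 1 = -(2 - p) by ring, div_neg, neg_div, neg_neg, show -(2 - p) = p - 2 by ring]
    rw [e1, e2]
    unfold Up
    rw [← hM]
    have hp : M ^ p = M ^ (p - 1) * M := by rw [← Real.rpow_add_one hMpos.ne']; ring_nf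
    have hp' : M ^ (p - 1) = M ^ (p - 2) * M := by rw [← Real.rpow_add_one hMpos.ne']; ring_nf
    have hxy : y ^ 2 - x ^ 2 = (|y| - |x|) * M := by
      rw [hM, ← sq_abs x, ← sq_abs y]; ring
    rw [hp, hp', hxy]
    have h1 : p ≠ 0 := by linarith
    have h2 : p - 1 ≠ 0 := by linarith
    have h3 : 2 - p ≠ 0 := by linarith
    have hMM : M = |x| + |y| := hM
    generalize M ^ (p - 2) = R
    rw [hMM]
    generalize |x| = X
    generalize |y| = Y
    field_simp
    ring

theorem int_high (p : ℝ) (hp2 : 2 < p) (x y : ℝ) :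
    IntegrableOn (fun t : ℝ => t ^ (p - 1) * (b1 (y / t) (x / t) + (y / t) ^ 2 - (x / t) ^ 2)) (Ioi 0) ∧
    ∫ t in Ioi (0 : ℝ), t ^ (p - 1) * (b1 (y / t) (x / t) + (y / t) ^ 2 - (x / t) ^ 2) =
      Up p (2 / (p * (p - 1) * (p - 2))) (2 / (p * (p - 2))) x y := by
  set M : ℝ := |x| + |y| with hM
  have hM0 : 0 ≤ M := by positivity
  rcases hM0.eq_or_lt with h0 | hMpos
  · have hx : x = 0 := by
      have := abs_nonneg x; have := abs_nonneg y
      exact abs_eq_zero.mp (by linarith)
    have hy : y = 0 := by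
      have := abs_nonneg x; have := abs_nonneg y
      exact abs_eq_zero.mp (by linarith)
    subst hx; subst hy
    have hz : ∀ t : ℝ, t ^ (p - 1) * (b1 (0 / t) (0 / t) + (0 / t) ^ 2 - (0 / t) ^ 2) = 0 := by
      intro t; simp [b1]
    simp_rw [hz]
    constructor
    · exact integrableOn_zero
    · simp [Up]
  have hIoc : EqOn (fun t : ℝ => t ^ (p - 1) * (b1 (y / t) (x / t) + (y / t) ^ 2 - (x / t) ^ 2))
      (fun t => t ^ (p - 1) - 2 * |y| * t ^ (p - 2) + (y ^ 2 - x ^ 2) * t ^ (p - 3)) (Ioo 0 M) := by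
    intro t ht
    have h1 : ¬ (|y / t| + |x / t| ≤ 1) := by
      rw [abs_div, abs_div, abs_of_pos ht.1, ← add_div, div_le_one ht.1, not_le, add_comm]; exact ht.2
    simp only
    rw [b1, if_neg h1, abs_div, abs_of_pos ht.1]
    have e1 : t ^ (p - 2) = t ^ (p - 3) * t := by
      rw [← Real.rpow_add_one ht.1.ne']; ring_nf
    have e2 : t ^ (p - 1) = t ^ (p - 3) * t ^ 2 := by
      rw [← Real.rpow_natCast, ← Real.rpow_add ht.1]; norm_num; ring_nf
    rw [e1, e2]; have := ht.1.ne'; field_simp; ring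
  have hIoi : EqOn (fun t : ℝ => t ^ (p - 1) * (b1 (y / t) (x / t) + (y / t) ^ 2 - (x / t) ^ 2))
      (fun _ => (0 : ℝ)) (Ici M) := by
    intro t ht
    have ht0 : 0 < t := lt_of_lt_of_le hMpos ht
    have h1 : |y / t| + |x / t| ≤ 1 := by
      rw [abs_div, abs_div, abs_of_pos ht0, ← add_div, div_le_one ht0, add_comm]; exact ht
    simp only
    rw [b1, if_pos h1]
    ring
  have hII1 : IntervalIntegrable (fun t : ℝ => t ^ (p - 1)) volume 0 M :=
    intervalIntegral.intervalIntegrable_rpow' (by linarith)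
  have hII2 : IntervalIntegrable (fun t : ℝ => 2 * |y| * t ^ (p - 2)) volume 0 M :=
    (intervalIntegral.intervalIntegrable_rpow' (by linarith)).const_mul _
  have hII3 : IntervalIntegrable (fun t : ℝ => (y ^ 2 - x ^ 2) * t ^ (p - 3)) volume 0 M :=
    (intervalIntegral.intervalIntegrable_rpow' (by linarith)).const_mul _
  have hI1 : IntegrableOn (fun t : ℝ => t ^ (p - 1) - 2 * |y| * t ^ (p - 2) +
      (y ^ 2 - x ^ 2) * t ^ (p - 3)) (Ioo 0 M) := by
    have := (hII1.sub hII2).add hII3
    rwa [intervalIntegrable_iff_integrableOn_Ioo_of_le hM0] at this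
  have hJ1 := hI1.congr_fun hIoc.symm measurableSet_Ioo
  have hJ2 : IntegrableOn (fun t : ℝ => t ^ (p - 1) *
      (b1 (y / t) (x / t) + (y / t) ^ 2 - (x / t) ^ 2)) (Ici M) :=
    integrableOn_zero.congr_fun hIoi.symm measurableSet_Ici
  have hun : Ioi (0 : ℝ) = Ioo 0 M ∪ Ici M := (Ioo_union_Ici_eq_Ioi hMpos).symm
  have hdisj : Disjoint (Ioo (0 : ℝ) M) (Ici M) := by
    rw [Set.disjoint_left]; intro z hz hz'
    exact absurd hz.2 (not_lt.mpr hz')
  constructor
  · rw [hun]; exact hJ1.union hJ2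
  · rw [hun, setIntegral_union hdisj measurableSet_Ici hJ1 hJ2,
      setIntegral_congr_fun measurableSet_Ioo hIoc, setIntegral_congr_fun measurableSet_Ici hIoi]
    have e1 : ∫ t in Ioo 0 M, (t ^ (p - 1) - 2 * |y| * t ^ (p - 2) + (y ^ 2 - x ^ 2) * t ^ (p - 3)) =
        M ^ p / p - 2 * |y| * (M ^ (p - 1) / (p - 1)) + (y ^ 2 - x ^ 2) * (M ^ (p - 2) / (p - 2)) := by
      rw [← integral_Ioc_eq_integral_Ioo, ← intervalIntegral.integral_of_le hM0,
        intervalIntegral.integral_add (hII1.sub hII2) hII3,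
        intervalIntegral.integral_sub hII1 hII2, intervalIntegral.integral_const_mul,
        intervalIntegral.integral_const_mul,
        integral_rpow (Or.inl (by linarith)), integral_rpow (Or.inl (by linarith)),
        integral_rpow (Or.inl (by linarith))]
      rw [Real.zero_rpow (by linarith), Real.zero_rpow (by linarith), Real.zero_rpow (by linarith)]
      ring_nf
    rw [e1]
    simp only [integral_zero, add_zero]
    unfold Up
    rw [← hM]
    have hp : M ^ p = M ^ (p - 1) * M := by rw [← Real.rpow_add_one hMpos.ne']; ring_nf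
    have hp' : M ^ (p - 1) = M ^ (p - 2) * M := by rw [← Real.rpow_add_one hMpos.ne']; ring_nf
    have hxy : y ^ 2 - x ^ 2 = (|y| - |x|) * M := by
      rw [hM, ← sq_abs x, ← sq_abs y]; ring
    rw [hp, hp', hxy]
    have h1 : p ≠ 0 := by linarith
    have h2 : p - 1 ≠ 0 := by linarith
    have h3 : p - 2 ≠ 0 := by linarith
    have hMM : M = |x| + |y| := hM
    generalize M ^ (p - 2) = R
    rw [hMM]
    generalize |x| = X
    generalize |y| = Y
    field_simp
    ring

theorem exists_Up (p : ℝ) (hp : 1 < p) : ∃ A B : ℝ, 0 < A ∧ 0 < B ∧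
    (∀ x y a, Up p A B (x + a) (y + a) + Up p A B (x - a) (y - a) ≤ 2 * Up p A B x y) ∧
    (∀ x y a, Up p A B (x + a) (y - a) + Up p A B (x - a) (y + a) ≤ 2 * Up p A B x y) := by
  rcases lt_trichotomy p 2 with h | h | h
  · refine ⟨2 / (p * (2 - p)), 2 / (p * (p - 1) * (2 - p)), ?_, ?_, ?_, ?_⟩
    · have : 0 < 2 - p := by linarith
      positivity
    · have : 0 < 2 - p := by linarith
      have : 0 < p - 1 := by linarith
      positivity
    · intro x y a
      rw [← (int_low p hp h _ _).2, ← (int_low p hp h _ _).2, ← (int_low p hp h _ _).2,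
        ← integral_add (int_low p hp h _ _).1 (int_low p hp h _ _).1, ← integral_const_mul]
      refine setIntegral_mono_on ((int_low p hp h _ _).1.add (int_low p hp h _ _).1)
        ((int_low p hp h _ _).1.const_mul _) measurableSet_Ioi fun t ht => ?_
      have ht0 : (0 : ℝ) < t := ht
      have := b1_conc (x / t) (y / t) (a / t)
      rw [← add_div, ← add_div, ← sub_div, ← sub_div] at this
      have h2 : 0 ≤ t ^ (p - 1) := by positivity
      nlinarith [mul_le_mul_of_nonneg_left this h2]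
    · intro x y a
      rw [← (int_low p hp h _ _).2, ← (int_low p hp h _ _).2, ← (int_low p hp h _ _).2,
        ← integral_add (int_low p hp h _ _).1 (int_low p hp h _ _).1, ← integral_const_mul]
      refine setIntegral_mono_on ((int_low p hp h _ _).1.add (int_low p hp h _ _).1)
        ((int_low p hp h _ _).1.const_mul _) measurableSet_Ioi fun t ht => ?_
      have ht0 : (0 : ℝ) < t := ht
      have := b1_conc' (x / t) (y / t) (a / t)
      rw [← add_div, ← add_div, ← sub_div, ← sub_div] at this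
      have h2 : 0 ≤ t ^ (p - 1) := by positivity
      nlinarith [mul_le_mul_of_nonneg_left this h2]
  · refine ⟨1, 1, one_pos, one_pos, ?_, ?_⟩
    · intro x y a
      have key : ∀ x y : ℝ, Up p 1 1 x y = y ^ 2 - x ^ 2 := by
        intro x y
        unfold Up
        rw [h, show (2 : ℝ) - 1 = 1 by norm_num, Real.rpow_one, ← sq_abs x, ← sq_abs y]; ring
      rw [key, key, key]; nlinarith
    · intro x y a
      have key : ∀ x y : ℝ, Up p 1 1 x y = y ^ 2 - x ^ 2 := by
        intro x y
        unfold Up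
        rw [h, show (2 : ℝ) - 1 = 1 by norm_num, Real.rpow_one, ← sq_abs x, ← sq_abs y]; ring
      rw [key, key, key]; nlinarith
  · refine ⟨2 / (p * (p - 1) * (p - 2)), 2 / (p * (p - 2)), ?_, ?_, ?_, ?_⟩
    · have : 0 < p - 2 := by linarith
      have : 0 < p - 1 := by linarith
      positivity
    · have : 0 < p - 2 := by linarith
      positivity
    · intro x y a
      rw [← (int_high p h _ _).2, ← (int_high p h _ _).2, ← (int_high p h _ _).2,
        ← integral_add (int_high p h _ _).1 (int_high p h _ _).1, ← integral_const_mul]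
      refine setIntegral_mono_on ((int_high p h _ _).1.add (int_high p h _ _).1)
        ((int_high p h _ _).1.const_mul _) measurableSet_Ioi fun t ht => ?_
      have ht0 : (0 : ℝ) < t := ht
      have := b1_conc (y / t) (x / t) (a / t)
      rw [← add_div, ← add_div, ← sub_div, ← sub_div] at this
      have h2 : 0 ≤ t ^ (p - 1) := by positivity
      have h3 : ((y + a) / t) ^ 2 - ((x + a) / t) ^ 2 + (((y - a) / t) ^ 2 - ((x - a) / t) ^ 2) =
          2 * ((y / t) ^ 2 - (x / t) ^ 2) := by field_simp; ring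
      have h4 : b1 ((y + a) / t) ((x + a) / t) + ((y + a) / t) ^ 2 - ((x + a) / t) ^ 2 +
          (b1 ((y - a) / t) ((x - a) / t) + ((y - a) / t) ^ 2 - ((x - a) / t) ^ 2) ≤
          2 * (b1 (y / t) (x / t) + (y / t) ^ 2 - (x / t) ^ 2) := by linarith
      nlinarith [mul_le_mul_of_nonneg_left h4 h2]
    · intro x y a
      rw [← (int_high p h _ _).2, ← (int_high p h _ _).2, ← (int_high p h _ _).2,
        ← integral_add (int_high p h _ _).1 (int_high p h _ _).1, ← integral_const_mul]
      refine setIntegral_mono_on ((int_high p h _ _).1.add (int_high p h _ _).1)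
        ((int_high p h _ _).1.const_mul _) measurableSet_Ioi fun t ht => ?_
      have ht0 : (0 : ℝ) < t := ht
      have := b1_conc' (y / t) (x / t) (a / t)
      rw [← add_div, ← add_div, ← sub_div, ← sub_div] at this
      have h2 : 0 ≤ t ^ (p - 1) := by positivity
      have h3 : ((y - a) / t) ^ 2 - ((x + a) / t) ^ 2 + (((y + a) / t) ^ 2 - ((x - a) / t) ^ 2) =
          2 * ((y / t) ^ 2 - (x / t) ^ 2) := by field_simp; ring
      have h4 : b1 ((y - a) / t) ((x + a) / t) + ((y - a) / t) ^ 2 - ((x + a) / t) ^ 2 +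
          (b1 ((y + a) / t) ((x - a) / t) + ((y + a) / t) ^ 2 - ((x - a) / t) ^ 2) ≤
          2 * (b1 (y / t) (x / t) + (y / t) ^ 2 - (x / t) ^ 2) := by linarith
      nlinarith [mul_le_mul_of_nonneg_left h4 h2]

/-- lower bound of `Up` -/
theorem Up_ge (p A B : ℝ) (hp : 1 < p) (hA : 0 < A) (hB : 0 < B) :
    ∃ C : ℝ, 0 ≤ C ∧ ∀ x y, A / 2 * |y| ^ p - C * |x| ^ p ≤ Up p A B x y := by
  set K : ℝ := 2 * B / A with hK
  have hKpos : 0 < K := by positivity
  refine ⟨A / 2 * K ^ p + (1 + K) ^ (p - 1) * B, by positivity, fun x y => ?_⟩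
  unfold Up
  set X := |x|
  set Y := |y|
  have hX : 0 ≤ X := abs_nonneg x
  have hY : 0 ≤ Y := abs_nonneg y
  have hp1 : 0 < p - 1 := by linarith
  have split : ∀ z : ℝ, 0 ≤ z → z ^ p = z ^ (p - 1) * z := by
    intro z hz
    rw [← Real.rpow_add_one' hz (by linarith)]; ring_nf
  rcases le_or_gt (K * X) Y with h | h
  · have h1 : B * X ≤ A / 2 * Y := by
      have : B * X = A / 2 * (K * X) := by rw [hK]; field_simp
      rw [this]; gcongr
    have h2 : Y ^ (p - 1) ≤ (X + Y) ^ (p - 1) := Real.rpow_le_rpow hY (by linarith) hp1.le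
    have h3 : A / 2 * Y ≤ A * Y - B * X := by linarith
    have h4 : Y ^ (p - 1) * (A / 2 * Y) ≤ (X + Y) ^ (p - 1) * (A * Y - B * X) :=
      mul_le_mul h2 h3 (by positivity) (by positivity)
    rw [split Y hY]
    have h5 : 0 ≤ (A / 2 * K ^ p + (1 + K) ^ (p - 1) * B) * X ^ p := by positivity
    nlinarith [h4, h5]
  · have h1 : Y ^ p ≤ K ^ p * X ^ p := by
      rw [← Real.mul_rpow hKpos.le hX]
      exact Real.rpow_le_rpow hY h.le (by linarith)
    have h2 : (X + Y) ^ (p - 1) ≤ (1 + K) ^ (p - 1) * X ^ (p - 1) := by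
      rw [← Real.mul_rpow (by positivity) hX]
      exact Real.rpow_le_rpow (by positivity) (by nlinarith) hp1.le
    have h3 : (X + Y) ^ (p - 1) * (B * X) ≤ (1 + K) ^ (p - 1) * B * X ^ p := by
      rw [split X hX]
      calc (X + Y) ^ (p - 1) * (B * X) ≤ ((1 + K) ^ (p - 1) * X ^ (p - 1)) * (B * X) := by gcongr
        _ = (1 + K) ^ (p - 1) * B * (X ^ (p - 1) * X) := by ring
    have h4 : 0 ≤ (X + Y) ^ (p - 1) * (A * Y) := by positivity
    nlinarith [h1, h3, h4, hA]

/-- The transform inequality (Burkholder), for Haar expansions. -/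
theorem TR (p : ℝ) (hp : 1 < p) : ∃ C : ℝ, 0 < C ∧ ∀ d e : ℕ → ℕ → ℝ,
    (∀ m k, |e m k| = |d m k|) → ∀ N,
    ∑ i ∈ range (2 ^ N), |Hs e N i| ^ p ≤ C * ∑ i ∈ range (2 ^ N), |Hs d N i| ^ p := by
  obtain ⟨A, B, hA, hB, h1, h2⟩ := exists_Up p hp
  obtain ⟨C, hC, h3⟩ := Up_ge p A B hp hA hB
  refine ⟨2 / A * C + 1, by positivity, fun d e hde N => ?_⟩
  have h4 := sum_step (Up p A B) h1 h2 (by simp [Up]) d e hde N
  have h5 : ∑ i ∈ range (2 ^ N), (A / 2 * |Hs e N i| ^ p - C * |Hs d N i| ^ p) ≤ 0 :=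
    (sum_le_sum fun i _ => h3 _ _).trans h4
  rw [sum_sub_distrib, ← mul_sum, ← mul_sum] at h5
  set P := ∑ i ∈ range (2 ^ N), |Hs e N i| ^ p
  set Q := ∑ i ∈ range (2 ^ N), |Hs d N i| ^ p
  have hQ : 0 ≤ Q := sum_nonneg fun i _ => by positivity
  have h6 : P ≤ 2 / A * (C * Q) := by
    have : A / 2 * P ≤ C * Q := by linarith
    calc P = 2 / A * (A / 2 * P) := by field_simp
      _ ≤ _ := by gcongr
  nlinarith

end Pool.Agent.LibHaar
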