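import Mathlib
import Pool.Agent.LibHaar.Transform

set_option autoImplicit false

namespace Pool.Agent.LibHaar

open Finset MeasureTheory Real

theorem Hs_explicit (d : ℕ → ℕ → ℝ) (N : ℕ) : ∀ i, Hs d N i =
    ∑ m ∈ range N, sg (i / 2 ^ (N - 1 - m)) * d m (i / 2 ^ (N - m)) := by
  induction N with
  | zero => intro i; simp [Hs]
  | succ N ih =>
    intro i
    rw [sum_range_succ, Hs, ih (i / 2)]
    congr 1
    · refine sum_congr rfl fun m hm => ?_
      have hm' : m < N := mem_range.mp hm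
      rw [Nat.div_div_eq_div_mul, Nat.div_div_eq_div_mul, ← pow_succ', ← pow_succ',
        show N - 1 - m + 1 = N + 1 - 1 - m by omega, show N - m + 1 = N + 1 - m by omega]
    · simp

theorem Hs_congr (d d' : ℕ → ℕ → ℝ) (N : ℕ) (h : ∀ m < N, ∀ k, d m k = d' m k) :
    ∀ i, Hs d N i = Hs d' N i := by
  intro i
  rw [Hs_explicit, Hs_explicit]
  refine sum_congr rfl fun m hm => ?_
  rw [h m (mem_range.mp hm)]

theorem Hs_add (d d' : ℕ → ℕ → ℝ) (N i : ℕ) :
    Hs (fun m k => d m k + d' m k) N i = Hs d N i + Hs d' N i := by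
  rw [Hs_explicit, Hs_explicit, Hs_explicit, ← sum_add_distrib]
  refine sum_congr rfl fun m _ => by ring

theorem Hs_smul (c : ℝ) (d : ℕ → ℕ → ℝ) (N i : ℕ) :
    Hs (fun m k => c * d m k) N i = c * Hs d N i := by
  rw [Hs_explicit, Hs_explicit, mul_sum]
  refine sum_congr rfl fun m _ => by ring

theorem abs_sg (i : ℕ) : |sg i| = 1 := by
  unfold sg; split_ifs <;> simp

theorem abs_unit (u : ℤˣ) : |((u : ℤ) : ℝ)| = 1 := by
  rcases Int.units_eq_one_or u with h | h <;> simp [h]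

/-- averaging over random signs sees only absolute values -/
theorem sum_signs {N : ℕ} (c c' : Fin N → ℝ) (h : ∀ m, |c m| = |c' m|) (φ : ℝ → ℝ) :
    ∑ η : Fin N → ℤˣ, φ (∑ m, ((η m : ℤ) : ℝ) * c m) =
    ∑ η : Fin N → ℤˣ, φ (∑ m, ((η m : ℤ) : ℝ) * c' m) := by
  classical
  have hs : ∀ m, ∃ s : ℤˣ, c' m = ((s : ℤ) : ℝ) * c m := by
    intro m
    rcases abs_eq_abs.mp (h m) with h1 | h1
    · exact ⟨1, by simp [h1]⟩
    · exact ⟨-1, by simp [h1]⟩
  choose s hs using hs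
  refine (Fintype.sum_equiv (Equiv.mulRight s) _ _ fun η => ?_).symm
  congr 1
  refine sum_congr rfl fun m _ => ?_
  rw [hs m]
  simp only [Equiv.coe_mulRight, Pi.mul_apply, Units.val_mul, Int.cast_mul]
  ring

/-- the shift estimate -/
theorem shift_bound (p : ℝ) (C : ℝ) (hC : 0 < C) (hTR : ∀ d e : ℕ → ℕ → ℝ,
    (∀ m k, |e m k| = |d m k|) → ∀ N,
    ∑ i ∈ range (2 ^ N), |Hs e N i| ^ p ≤ C * ∑ i ∈ range (2 ^ N), |Hs d N i| ^ p)
    (d e : ℕ → ℕ → ℝ) (he0 : ∀ k, e 0 k = 0) (he : ∀ m j, |e (m + 1) j| = |d m (j / 2)|) (N : ℕ) :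
    ∑ i ∈ range (2 ^ (N + 1)), |Hs e (N + 1) i| ^ p ≤
      2 * C ^ 2 * ∑ i ∈ range (2 ^ N), |Hs d N i| ^ p := by
  classical
  set dη : (Fin N → ℤˣ) → ℕ → ℕ → ℝ := fun η m k =>
    (if h : m < N then ((η ⟨m, h⟩ : ℤ) : ℝ) else 1) * d m k with hdη
  set eη : (Fin N → ℤˣ) → ℕ → ℕ → ℝ := fun η m k =>
    (if h : m - 1 < N then ((η ⟨m - 1, h⟩ : ℤ) : ℝ) else 1) * e m k with heη
  have habs1 : ∀ η m k, |dη η m k| = |d m k| := by
    intro η m k
    simp only [hdη, abs_mul]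
    split_ifs
    · rw [abs_unit, one_mul]
    · simp
  have habs2 : ∀ η m k, |e m k| = |eη η m k| := by
    intro η m k
    simp only [heη, abs_mul]
    split_ifs
    · rw [abs_unit, one_mul]
    · simp
  set P := ∑ i ∈ range (2 ^ (N + 1)), |Hs e (N + 1) i| ^ p with hP
  set Q := ∑ i ∈ range (2 ^ N), |Hs d N i| ^ p with hQ
  have h1 : ∀ η, P ≤ C * ∑ i ∈ range (2 ^ (N + 1)), |Hs (eη η) (N + 1) i| ^ p := fun η =>
    hTR _ _ (habs2 η) (N + 1)
  have h2 : ∀ η, ∑ i ∈ range (2 ^ N), |Hs (dη η) N i| ^ p ≤ C * Q := fun η =>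
    hTR _ _ (habs1 η) N
  have h3 : ∀ i, ∑ η, |Hs (eη η) (N + 1) i| ^ p = ∑ η, |Hs (dη η) N (i / 2)| ^ p := by
    intro i
    set c : Fin N → ℝ := fun m => sg (i / 2 ^ (N - (m + 1))) * e (m + 1) (i / 2 ^ (N - m)) with hc
    set c' : Fin N → ℝ := fun m => sg ((i / 2) / 2 ^ (N - 1 - m)) * d m ((i / 2) / 2 ^ (N - m)) with hc'
    have e1 : ∀ η, Hs (eη η) (N + 1) i = ∑ m, ((η m : ℤ) : ℝ) * c m := by
      intro η
      rw [Hs_explicit, sum_range_succ']
      have hz : eη η 0 (i / 2 ^ (N + 1 - 0)) = 0 := by simp only [heη]; rw [he0, mul_zero]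
      rw [hz, mul_zero, add_zero, ← Fin.sum_univ_eq_sum_range (fun m =>
        sg (i / 2 ^ (N + 1 - 1 - (m + 1))) * eη η (m + 1) (i / 2 ^ (N + 1 - (m + 1)))) N]
      refine sum_congr rfl fun m _ => ?_
      have hm : (m : ℕ) + 1 - 1 < N := by have := m.2; omega
      simp only [heη, hc]
      rw [dif_pos hm]
      have hmm : (⟨(m : ℕ) + 1 - 1, hm⟩ : Fin N) = m := by ext; simp
      rw [hmm, show N + 1 - 1 - ((m : ℕ) + 1) = N - (m + 1) by omega,
        show N + 1 - ((m : ℕ) + 1) = N - m by omega]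
      ring
    have e2 : ∀ η, Hs (dη η) N (i / 2) = ∑ m, ((η m : ℤ) : ℝ) * c' m := by
      intro η
      rw [Hs_explicit, ← Fin.sum_univ_eq_sum_range (fun m =>
        sg (i / 2 / 2 ^ (N - 1 - m)) * dη η m (i / 2 / 2 ^ (N - m))) N]
      refine sum_congr rfl fun m _ => ?_
      simp only [hdη, hc']
      rw [dif_pos m.2]
      ring
    simp_rw [e1, e2]
    refine sum_signs c c' (fun m => ?_) (fun x => |x| ^ p)
    simp only [hc, hc', abs_mul, abs_sg, one_mul, he]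
    congr 2
    rw [Nat.div_div_eq_div_mul, Nat.div_div_eq_div_mul]
    congr 1; ring
  set n : ℝ := (Fintype.card (Fin N → ℤˣ) : ℝ) with hn
  have hnpos : 0 < n := by
    rw [hn]; exact_mod_cast Fintype.card_pos
  have h4 : n * P ≤ n * (2 * C ^ 2 * Q) := by
    calc n * P = ∑ _η : Fin N → ℤˣ, P := by rw [sum_const, card_univ, nsmul_eq_mul]
      _ ≤ ∑ η : Fin N → ℤˣ, C * ∑ i ∈ range (2 ^ (N + 1)), |Hs (eη η) (N + 1) i| ^ p :=
          sum_le_sum fun η _ => h1 η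
      _ = C * ∑ i ∈ range (2 ^ (N + 1)), ∑ η : Fin N → ℤˣ, |Hs (dη η) N (i / 2)| ^ p := by
          rw [← mul_sum, sum_comm]
          congr 1
          exact sum_congr rfl fun i _ => h3 i
      _ = C * ∑ η : Fin N → ℤˣ, (2 * ∑ i ∈ range (2 ^ N), |Hs (dη η) N i| ^ p) := by
          rw [sum_comm]
          congr 1
          refine sum_congr rfl fun η _ => ?_
          rw [pow_succ, mul_comm (2 ^ N), sum_range_two_mul, mul_sum]
          refine sum_congr rfl fun k _ => ?_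
          have hk1 : 2 * k / 2 = k := by omega
          have hk2 : (2 * k + 1) / 2 = k := by omega
          rw [hk1, hk2]; ring
      _ ≤ C * ∑ _η : Fin N → ℤˣ, (2 * (C * Q)) := by
          gcongr with η _
          exact h2 η
      _ = n * (2 * C ^ 2 * Q) := by
          rw [sum_const, card_univ, nsmul_eq_mul]; ring
  exact le_of_mul_le_mul_left h4 hnpos

end Pool.Agent.LibHaar
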