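import Mathlib
import Pool.Agent.LibHaar.Shift

set_option autoImplicit false

namespace Pool.Agent.LibHaar

open Finset MeasureTheory Real

section defs
variable {V : Type*} [AddCommGroup V] [Module ℝ V]

noncomputable def avg (a : ℕ → V) (k : ℕ) : V := (1 / 2 : ℝ) • (a (2 * k) + a (2 * k + 1))
noncomputable def dif (a : ℕ → V) (k : ℕ) : V := (1 / 2 : ℝ) • (a (2 * k) - a (2 * k + 1))

/-- the map on arrays -/
noncomputable def tarr : ℕ → (ℕ → V) → (ℕ → V) → ℕ → V
  | 0, a, b, i => (√2)⁻¹ • (a (i / 2) + sg i • b (i / 2))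
  | N + 1, a, b, i => tarr N (avg a) (avg b) (i / 2) +
      sg i • (if (i / 2) % 2 = 0 then dif a (i / 4) else dif b (i / 4))

noncomputable def u1 : ℕ → (ℕ → V) → ℕ → V
  | 0, c, k => (√2)⁻¹ • (c (2 * k) + c (2 * k + 1))
  | N + 1, c, i => u1 N (avg c) (i / 2) + sg i • dif c (2 * (i / 2))

noncomputable def u2 : ℕ → (ℕ → V) → ℕ → V
  | 0, c, k => (√2)⁻¹ • (c (2 * k) - c (2 * k + 1))
  | N + 1, c, i => u2 N (avg c) (i / 2) + sg i • dif c (2 * (i / 2) + 1)

theorem split (a : ℕ → V) (i : ℕ) : a i = avg a (i / 2) + sg i • dif a (i / 2) := by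
  obtain ⟨k, rfl | rfl⟩ : ∃ k, i = 2 * k ∨ i = 2 * k + 1 := ⟨i / 2, by omega⟩
  · have : 2 * k / 2 = k := by omega
    rw [this, sg_even, one_smul, avg, dif, ← smul_add]
    rw [show a (2 * k) + a (2 * k + 1) + (a (2 * k) - a (2 * k + 1)) = (2 : ℝ) • a (2 * k) by
      rw [two_smul]; abel, smul_smul]; norm_num
  · have : (2 * k + 1) / 2 = k := by omega
    rw [this, sg_odd, avg, dif, neg_smul, one_smul, ← sub_eq_add_neg, ← smul_sub]
    rw [show a (2 * k) + a (2 * k + 1) - (a (2 * k) - a (2 * k + 1)) = (2 : ℝ) • a (2 * k + 1) by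
      rw [two_smul]; abel, smul_smul]; norm_num

/-- averages and differences of an array of the form A(i/2) + sg i D(i/2) -/
theorem avg_of (A D : ℕ → V) : avg (fun i => A (i / 2) + sg i • D (i / 2)) = A := by
  ext k
  have h1 : 2 * k / 2 = k := by omega
  have h2 : (2 * k + 1) / 2 = k := by omega
  simp only [avg, h1, h2, sg_even, sg_odd]
  rw [one_smul, neg_smul, one_smul, show A k + D k + (A k + -D k) = (2 : ℝ) • A k from by
    rw [two_smul]; abel, smul_smul]; norm_num

theorem dif_of (A D : ℕ → V) : dif (fun i => A (i / 2) + sg i • D (i / 2)) = D := by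
  ext k
  have h1 : 2 * k / 2 = k := by omega
  have h2 : (2 * k + 1) / 2 = k := by omega
  simp only [dif, h1, h2, sg_even, sg_odd]
  rw [one_smul, neg_smul, one_smul, show A k + D k - (A k + -D k) = (2 : ℝ) • D k by
    rw [two_smul]; abel, smul_smul]; norm_num

theorem avg_tarr (N : ℕ) (a b : ℕ → V) : avg (tarr (N + 1) a b) = tarr N (avg a) (avg b) := by
  have : tarr (N + 1) a b = fun i => tarr N (avg a) (avg b) (i / 2) +
      sg i • (fun j => if j % 2 = 0 then dif a (j / 2) else dif b (j / 2)) (i / 2) := by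
    ext i
    have : i / 2 / 2 = i / 4 := by omega
    simp only [tarr, this]
  rw [this]
  exact avg_of (tarr N (avg a) (avg b)) (fun j => if j % 2 = 0 then dif a (j / 2) else dif b (j / 2))

theorem dif_tarr (N : ℕ) (a b : ℕ → V) : dif (tarr (N + 1) a b) =
    fun j => if j % 2 = 0 then dif a (j / 2) else dif b (j / 2) := by
  have : tarr (N + 1) a b = fun i => tarr N (avg a) (avg b) (i / 2) +
      sg i • (fun j => if j % 2 = 0 then dif a (j / 2) else dif b (j / 2)) (i / 2) := by
    ext i
    have : i / 2 / 2 = i / 4 := by omega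
    simp only [tarr, this]
  rw [this]
  exact dif_of (tarr N (avg a) (avg b)) (fun j => if j % 2 = 0 then dif a (j / 2) else dif b (j / 2))

theorem avg_u1 (N : ℕ) (c : ℕ → V) : avg (u1 (N + 1) c) = u1 N (avg c) :=
  avg_of (u1 N (avg c)) (fun k => dif c (2 * k))

theorem dif_u1 (N : ℕ) (c : ℕ → V) : dif (u1 (N + 1) c) = fun k => dif c (2 * k) :=
  dif_of (u1 N (avg c)) (fun k => dif c (2 * k))

theorem avg_u2 (N : ℕ) (c : ℕ → V) : avg (u2 (N + 1) c) = u2 N (avg c) :=
  avg_of (u2 N (avg c)) (fun k => dif c (2 * k + 1))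

theorem dif_u2 (N : ℕ) (c : ℕ → V) : dif (u2 (N + 1) c) = fun k => dif c (2 * k + 1) :=
  dif_of (u2 N (avg c)) (fun k => dif c (2 * k + 1))

theorem array_ext (a b : ℕ → V) (h1 : avg a = avg b) (h2 : dif a = dif b) : a = b := by
  ext i; rw [split a i, split b i, h1, h2]

theorem sqrt_two_inv_sq : ((√2)⁻¹ : ℝ) * (√2)⁻¹ = 1 / 2 := by
  rw [← mul_inv, Real.mul_self_sqrt (by norm_num)]; norm_num

theorem tarr_u (N : ℕ) : ∀ c : ℕ → V, tarr N (u1 N c) (u2 N c) = c := by
  induction N with
  | zero =>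
    intro c
    ext i
    obtain ⟨k, rfl | rfl⟩ : ∃ k, i = 2 * k ∨ i = 2 * k + 1 := ⟨i / 2, by omega⟩
    · have : 2 * k / 2 = k := by omega
      simp only [tarr, u1, u2, this, sg_even]
      rw [one_smul, ← smul_add, smul_smul, sqrt_two_inv_sq,
        show c (2 * k) + c (2 * k + 1) + (c (2 * k) - c (2 * k + 1)) = (2 : ℝ) • c (2 * k) by
        rw [two_smul]; abel, smul_smul]; norm_num
    · have : (2 * k + 1) / 2 = k := by omega
      simp only [tarr, u1, u2, this, sg_odd]
      rw [neg_smul, one_smul, ← sub_eq_add_neg, ← smul_sub, smul_smul, sqrt_two_inv_sq,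
        show c (2 * k) + c (2 * k + 1) - (c (2 * k) - c (2 * k + 1)) = (2 : ℝ) • c (2 * k + 1) by
        rw [two_smul]; abel, smul_smul]; norm_num
  | succ N ih =>
    intro c
    apply array_ext
    · rw [avg_tarr, avg_u1, avg_u2, ih]
    · rw [dif_tarr, dif_u1, dif_u2]
      ext j
      split_ifs with h
      · show dif c (2 * (j / 2)) = dif c j
        rw [show 2 * (j / 2) = j by omega]
      · show dif c (2 * (j / 2) + 1) = dif c j
        rw [show 2 * (j / 2) + 1 = j by omega]

theorem u1_tarr (N : ℕ) : ∀ a b : ℕ → V, u1 N (tarr N a b) = a := by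
  induction N with
  | zero =>
    intro a b
    ext k
    have h1 : 2 * k / 2 = k := by omega
    have h2 : (2 * k + 1) / 2 = k := by omega
    simp only [tarr, u1, h1, h2, sg_even, sg_odd]
    rw [neg_smul, one_smul, ← smul_add, smul_smul, sqrt_two_inv_sq,
      show a k + b k + (a k + -b k) = (2 : ℝ) • a k by rw [two_smul]; abel, smul_smul]; norm_num
  | succ N ih =>
    intro a b
    apply array_ext
    · rw [avg_u1, avg_tarr, ih]
    · rw [dif_u1, dif_tarr]
      ext j
      have h1 : 2 * j % 2 = 0 := by omega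
      have h2 : 2 * j / 2 = j := by omega
      simp [h1, h2]

theorem u2_tarr (N : ℕ) : ∀ a b : ℕ → V, u2 N (tarr N a b) = b := by
  induction N with
  | zero =>
    intro a b
    ext k
    have h1 : 2 * k / 2 = k := by omega
    have h2 : (2 * k + 1) / 2 = k := by omega
    simp only [tarr, u2, h1, h2, sg_even, sg_odd]
    rw [neg_smul, one_smul, ← smul_sub, smul_smul, sqrt_two_inv_sq,
      show a k + b k - (a k + -b k) = (2 : ℝ) • b k by rw [two_smul]; abel, smul_smul]; norm_num
  | succ N ih =>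
    intro a b
    apply array_ext
    · rw [avg_u2, avg_tarr, ih]
    · rw [dif_u2, dif_tarr]
      ext j
      have h1 : (2 * j + 1) % 2 = 1 := by omega
      have h2 : (2 * j + 1) / 2 = j := by omega
      simp [h1, h2]

/-- locality: values below 2^(N+1) only depend on the inputs below 2^N -/
theorem tarr_congr (N : ℕ) : ∀ (a b a' b' : ℕ → V), (∀ k < 2 ^ N, a k = a' k) →
    (∀ k < 2 ^ N, b k = b' k) → ∀ i < 2 ^ (N + 1), tarr N a b i = tarr N a' b' i := by
  induction N with
  | zero =>
    intro a b a' b' ha hb i hi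
    have : i / 2 < 2 ^ 0 := by rw [pow_one] at hi; omega
    simp only [tarr, ha _ this, hb _ this]
  | succ N ih =>
    intro a b a' b' ha hb i hi
    have h1 : i / 2 < 2 ^ (N + 1) := by rw [pow_succ] at hi; omega
    have h2 : i / 4 < 2 ^ N := by rw [pow_succ] at h1; omega
    have h3 : ∀ k < 2 ^ N, avg a k = avg a' k := by
      intro k hk
      rw [avg, avg, ha _ (by rw [pow_succ]; omega), ha _ (by rw [pow_succ]; omega)]
    have h4 : ∀ k < 2 ^ N, avg b k = avg b' k := by
      intro k hk
      rw [avg, avg, hb _ (by rw [pow_succ]; omega), hb _ (by rw [pow_succ]; omega)]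
    have h5 : dif a (i / 4) = dif a' (i / 4) := by
      rw [dif, dif, ha _ (by rw [pow_succ]; omega), ha _ (by rw [pow_succ]; omega)]
    have h6 : dif b (i / 4) = dif b' (i / 4) := by
      rw [dif, dif, hb _ (by rw [pow_succ]; omega), hb _ (by rw [pow_succ]; omega)]
    simp only [tarr]
    rw [ih _ _ _ _ h3 h4 _ h1, h5, h6]

theorem u1_congr (N : ℕ) : ∀ (c c' : ℕ → V), (∀ k < 2 ^ (N + 1), c k = c' k) →
    ∀ i < 2 ^ N, u1 N c i = u1 N c' i := by
  induction N with
  | zero =>
    intro c c' h i hi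
    have h0 : i = 0 := by rw [pow_zero] at hi; omega
    subst h0
    simp only [u1]
    rw [h _ (by norm_num), h _ (by norm_num)]
  | succ N ih =>
    intro c c' h i hi
    have hi2 : i / 2 < 2 ^ N := by rw [pow_succ] at hi; omega
    have h3 : ∀ k < 2 ^ (N + 1), avg c k = avg c' k := by
      intro k hk
      rw [avg, avg, h _ (by rw [pow_succ]; omega), h _ (by rw [pow_succ]; omega)]
    have e : 2 ^ (N + 1 + 1) = 4 * 2 ^ N := by ring
    simp only [u1]
    rw [ih _ _ h3 _ hi2, dif, dif, h _ (by omega), h _ (by omega)]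

theorem u2_congr (N : ℕ) : ∀ (c c' : ℕ → V), (∀ k < 2 ^ (N + 1), c k = c' k) →
    ∀ i < 2 ^ N, u2 N c i = u2 N c' i := by
  induction N with
  | zero =>
    intro c c' h i hi
    have h0 : i = 0 := by rw [pow_zero] at hi; omega
    subst h0
    simp only [u2]
    rw [h _ (by norm_num), h _ (by norm_num)]
  | succ N ih =>
    intro c c' h i hi
    have hi2 : i / 2 < 2 ^ N := by rw [pow_succ] at hi; omega
    have h3 : ∀ k < 2 ^ (N + 1), avg c k = avg c' k := by
      intro k hk
      rw [avg, avg, h _ (by rw [pow_succ]; omega), h _ (by rw [pow_succ]; omega)]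
    have e : 2 ^ (N + 1 + 1) = 4 * 2 ^ N := by ring
    simp only [u2]
    rw [ih _ _ h3 _ hi2, dif, dif, h _ (by omega), h _ (by omega)]

end defs

section linmap
variable {V W : Type*} [AddCommGroup V] [Module ℝ V] [AddCommGroup W] [Module ℝ W]

theorem avg_map (L : V →ₗ[ℝ] W) (a : ℕ → V) : avg (fun k => L (a k)) = fun k => L (avg a k) := by
  ext k; simp [avg]

theorem dif_map (L : V →ₗ[ℝ] W) (a : ℕ → V) : dif (fun k => L (a k)) = fun k => L (dif a k) := by
  ext k; simp [dif]

theorem tarr_map (L : V →ₗ[ℝ] W) (N : ℕ) : ∀ a b : ℕ → V,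
    tarr N (fun k => L (a k)) (fun k => L (b k)) = fun i => L (tarr N a b i) := by
  induction N with
  | zero => intro a b; ext i; simp [tarr]
  | succ N ih =>
    intro a b; ext i
    simp only [tarr, avg_map, dif_map, ih]
    split_ifs <;> simp

theorem u1_map (L : V →ₗ[ℝ] W) (N : ℕ) : ∀ c : ℕ → V,
    u1 N (fun k => L (c k)) = fun i => L (u1 N c i) := by
  induction N with
  | zero => intro a; ext i; simp [u1]
  | succ N ih =>
    intro a; ext i
    simp only [u1, avg_map, dif_map, ih]
    simp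

theorem u2_map (L : V →ₗ[ℝ] W) (N : ℕ) : ∀ c : ℕ → V,
    u2 N (fun k => L (c k)) = fun i => L (u2 N c i) := by
  induction N with
  | zero => intro a; ext i; simp [u2]
  | succ N ih =>
    intro a; ext i
    simp only [u2, avg_map, dif_map, ih]
    simp

end linmap

/-- the transpose relation -/
theorem inner_tarr (N : ℕ) : ∀ a b c : ℕ → ℝ,
    ∑ i ∈ range (2 ^ (N + 1)), tarr N a b i * c i =
      ∑ k ∈ range (2 ^ N), (a k * u1 N c k + b k * u2 N c k) := by
  induction N with
  | zero =>
    intro a b c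
    simp [sum_range_succ, tarr, u1, u2, sg]
    ring
  | succ N ih =>
    intro a b c
    rw [pow_succ, mul_comm (2 ^ (N + 1)), sum_range_two_mul]
    have h1 : ∀ j, tarr (N + 1) a b (2 * j) * c (2 * j) + tarr (N + 1) a b (2 * j + 1) * c (2 * j + 1)
        = 2 * (tarr N (avg a) (avg b) j * avg c j) +
          2 * ((if j % 2 = 0 then dif a (j / 2) else dif b (j / 2)) * dif c j) := by
      intro j
      have e1 := congrFun (avg_tarr N a b) j
      have e2 := congrFun (dif_tarr N a b) j
      rw [← e1, ← e2]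
      simp only [avg, dif, smul_eq_mul]; ring
    simp_rw [h1]
    rw [sum_add_distrib, ← mul_sum, ih (avg a) (avg b) (avg c), ← mul_sum]
    have h2 : ∑ j ∈ range (2 ^ (N + 1)), (if j % 2 = 0 then dif a (j / 2) else dif b (j / 2)) * dif c j
        = ∑ k ∈ range (2 ^ N), (dif a k * dif c (2 * k) + dif b k * dif c (2 * k + 1)) := by
      rw [pow_succ, mul_comm (2 ^ N), sum_range_two_mul]
      refine sum_congr rfl fun k _ => ?_
      have e1 : 2 * k % 2 = 0 := by omega
      have e2 : (2 * k + 1) % 2 = 1 := by omega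
      have e3 : 2 * k / 2 = k := by omega
      have e4 : (2 * k + 1) / 2 = k := by omega
      simp [e1, e2, e3, e4]
    rw [h2, pow_succ, mul_comm (2 ^ N), sum_range_two_mul]
    have h3 : ∀ k, a (2 * k) * u1 (N + 1) c (2 * k) + b (2 * k) * u2 (N + 1) c (2 * k) +
        (a (2 * k + 1) * u1 (N + 1) c (2 * k + 1) + b (2 * k + 1) * u2 (N + 1) c (2 * k + 1)) =
        2 * (avg a k * u1 N (avg c) k + avg b k * u2 N (avg c) k) +
        2 * (dif a k * dif c (2 * k) + dif b k * dif c (2 * k + 1)) := by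
      intro k
      have e1 := congrFun (avg_u1 N c) k
      have e2 := congrFun (dif_u1 N c) k
      have e3 := congrFun (avg_u2 N c) k
      have e4 := congrFun (dif_u2 N c) k
      rw [← e1, ← e2, ← e3, ← e4]
      simp only [avg, dif, smul_eq_mul]; ring
    rw [sum_congr rfl fun k _ => h3 k]
    simp only [sum_add_distrib, mul_sum, mul_add]

end Pool.Agent.LibHaar
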