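import Mathlib
import Pool.Agent.LibHaar.Arrays

set_option autoImplicit false

namespace Pool.Agent.LibHaar

open Finset MeasureTheory Real

noncomputable def bas : ℕ → (ℕ → ℝ) → ℝ
  | 0, a => a 0
  | N + 1, a => bas N (avg a)

noncomputable def coef : ℕ → (ℕ → ℝ) → ℕ → ℕ → ℝ
  | 0, _ => fun _ _ => 0
  | N + 1, a => fun m k => if m = N then dif a k else coef N (avg a) m k

noncomputable def ec (N : ℕ) (a b : ℕ → ℝ) : ℕ → ℕ → ℝ
  | 0, _ => 0
  | m + 1, j => if j % 2 = 0 then coef N a m (j / 2) else coef N b m (j / 2)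

theorem array_eq (N : ℕ) : ∀ (a : ℕ → ℝ), ∀ i < 2 ^ N, a i = bas N a + Hs (coef N a) N i := by
  induction N with
  | zero =>
    intro a i hi
    have : i = 0 := by rw [pow_zero] at hi; omega
    subst this; simp [bas, Hs]
  | succ N ih =>
    intro a i hi
    have hi2 : i / 2 < 2 ^ N := by rw [pow_succ] at hi; omega
    have h1 := split a i
    rw [smul_eq_mul] at h1
    rw [h1, ih (avg a) (i / 2) hi2]
    simp only [bas, Hs]
    rw [Hs_congr (coef (N + 1) a) (coef N (avg a)) N (fun m hm k => by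
      simp [coef, (Nat.ne_of_lt hm)])]
    simp [coef]; ring

theorem tarr_eq (N : ℕ) : ∀ (a b : ℕ → ℝ), ∀ i < 2 ^ (N + 1), tarr N a b i =
    (√2)⁻¹ * (bas N a + sg (i / 2 ^ N) * bas N b) + Hs (ec N a b) (N + 1) i := by
  induction N with
  | zero =>
    intro a b i hi
    have : i / 2 = 0 := by rw [zero_add, pow_one] at hi; omega
    simp [tarr, bas, Hs, ec, this]
  | succ N ih =>
    intro a b i hi
    have hi2 : i / 2 < 2 ^ (N + 1) := by rw [pow_succ] at hi; omega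
    simp only [tarr]
    rw [ih (avg a) (avg b) (i / 2) hi2]
    have h1 : Hs (ec (N + 1) a b) (N + 1 + 1) i = Hs (ec N (avg a) (avg b)) (N + 1) (i / 2) +
        sg i * (if (i / 2) % 2 = 0 then dif a (i / 4) else dif b (i / 4)) := by
      rw [Hs]
      rw [Hs_congr (ec (N + 1) a b) (ec N (avg a) (avg b)) (N + 1) (fun m hm k => by
        cases m with
        | zero => simp [ec]
        | succ m =>
          have : m ≠ N := by omega
          simp [ec, coef, this])]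
      congr 2
      have : i / 2 / 2 = i / 4 := by omega
      simp [ec, coef, this]
    rw [h1]
    have h2 : i / 2 / 2 ^ N = i / 2 ^ (N + 1) := by
      rw [Nat.div_div_eq_div_mul, pow_succ']
    rw [h2]
    simp only [bas, smul_eq_mul]; ring

theorem abs_add_rpow (p : ℝ) (hp : 0 < p) (x y : ℝ) :
    |x + y| ^ p ≤ 2 ^ p * (|x| ^ p + |y| ^ p) := by
  have h1 : |x + y| ≤ 2 * max |x| |y| := by
    have := abs_add_le x y
    have := le_max_left |x| |y|
    have := le_max_right |x| |y|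
    linarith
  have h0 : 0 ≤ max |x| |y| := le_max_of_le_left (abs_nonneg _)
  calc |x + y| ^ p ≤ (2 * max |x| |y|) ^ p := Real.rpow_le_rpow (abs_nonneg _) h1 hp.le
    _ = 2 ^ p * (max |x| |y|) ^ p := Real.mul_rpow (by norm_num) h0
    _ ≤ 2 ^ p * (|x| ^ p + |y| ^ p) := by
        gcongr
        rcases max_choice |x| |y| with h | h <;> rw [h]
        · have : 0 ≤ |y| ^ p := by positivity
          linarith
        · have : 0 ≤ |x| ^ p := by positivity
          linarith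

theorem avg_rpow (p : ℝ) (hp : 1 ≤ p) (x y : ℝ) :
    |(1 / 2 : ℝ) * (x + y)| ^ p ≤ 1 / 2 * (|x| ^ p + |y| ^ p) := by
  have h1 : |(1 / 2 : ℝ) * (x + y)| ≤ 1 / 2 * |x| + 1 / 2 * |y| := by
    rw [abs_mul, abs_of_pos (by norm_num : (0 : ℝ) < 1 / 2), ← mul_add]
    gcongr; exact abs_add_le _ _
  have h2 := (convexOn_rpow hp).2 (Set.mem_Ici.mpr (abs_nonneg x)) (Set.mem_Ici.mpr (abs_nonneg y))
    (by norm_num : (0 : ℝ) ≤ 1 / 2) (by norm_num : (0 : ℝ) ≤ 1 / 2) (by norm_num)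
  simp only [smul_eq_mul] at h2
  calc |(1 / 2 : ℝ) * (x + y)| ^ p ≤ (1 / 2 * |x| + 1 / 2 * |y|) ^ p :=
        Real.rpow_le_rpow (abs_nonneg _) h1 (by linarith)
    _ ≤ _ := by linarith

theorem sum_avg_le (p : ℝ) (hp : 1 ≤ p) (N : ℕ) (a : ℕ → ℝ) :
    2 * ∑ k ∈ range (2 ^ N), |avg a k| ^ p ≤ ∑ i ∈ range (2 ^ (N + 1)), |a i| ^ p := by
  rw [pow_succ, mul_comm (2 ^ N), sum_range_two_mul, mul_sum]
  refine sum_le_sum fun k _ => ?_
  have := avg_rpow p hp (a (2 * k)) (a (2 * k + 1))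
  simp only [avg, smul_eq_mul]
  linarith

theorem bas_le (p : ℝ) (hp : 1 ≤ p) (N : ℕ) : ∀ a : ℕ → ℝ,
    2 ^ N * |bas N a| ^ p ≤ ∑ k ∈ range (2 ^ N), |a k| ^ p := by
  induction N with
  | zero => intro a; simp [bas]
  | succ N ih =>
    intro a
    have h1 := ih (avg a)
    have h2 := sum_avg_le p hp N a
    simp only [bas]
    rw [pow_succ]
    linarith

theorem Hs_coef_le (p : ℝ) (hp : 1 ≤ p) (N : ℕ) (a : ℕ → ℝ) :
    ∑ k ∈ range (2 ^ N), |Hs (coef N a) N k| ^ p ≤ 2 ^ p * 2 * ∑ k ∈ range (2 ^ N), |a k| ^ p := by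
  have hp0 : 0 < p := by linarith
  calc ∑ k ∈ range (2 ^ N), |Hs (coef N a) N k| ^ p
      ≤ ∑ k ∈ range (2 ^ N), 2 ^ p * (|a k| ^ p + |bas N a| ^ p) := by
        refine sum_le_sum fun k hk => ?_
        have h1 := array_eq N a k (mem_range.mp hk)
        have h2 : Hs (coef N a) N k = a k + -bas N a := by linarith
        rw [h2]
        have := abs_add_rpow p hp0 (a k) (-bas N a)
        rwa [abs_neg] at this
    _ = 2 ^ p * (∑ k ∈ range (2 ^ N), |a k| ^ p + 2 ^ N * |bas N a| ^ p) := by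
        rw [← mul_sum, sum_add_distrib, sum_const, card_range, nsmul_eq_mul]; push_cast; ring
    _ ≤ 2 ^ p * (∑ k ∈ range (2 ^ N), |a k| ^ p + ∑ k ∈ range (2 ^ N), |a k| ^ p) := by
        gcongr; exact bas_le p hp N a
    _ = _ := by ring

/-- bound for the map on arrays, real case -/
theorem tarr_bound (p : ℝ) (hp : 1 < p) : ∃ C : ℝ, 0 < C ∧ ∀ (N : ℕ) (a b : ℕ → ℝ),
    ∑ i ∈ range (2 ^ (N + 1)), |tarr N a b i| ^ p ≤
      C * (∑ k ∈ range (2 ^ N), |a k| ^ p + ∑ k ∈ range (2 ^ N), |b k| ^ p) := by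
  obtain ⟨C, hC, hTR⟩ := TR p hp
  have hp0 : 0 < p := by linarith
  set c0 : ℝ := (2 : ℝ) ^ p with hc0
  have hc0pos : 0 < c0 := by positivity
  refine ⟨c0 * (2 * c0 + c0 * (c0 * (2 * (2 * C ^ 2 * (c0 * 2))))), by positivity,
    fun N a b => ?_⟩
  set SA := ∑ k ∈ range (2 ^ N), |a k| ^ p with hSA
  set SB := ∑ k ∈ range (2 ^ N), |b k| ^ p with hSB
  have hSA0 : 0 ≤ SA := sum_nonneg fun _ _ => by positivity
  have hSB0 : 0 ≤ SB := sum_nonneg fun _ _ => by positivity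
  -- the four shifted expansions
  set ep : (ℕ → ℝ) → ℕ → ℕ → ℝ := fun x m j => match m with
    | 0 => 0
    | m + 1 => coef N x m (j / 2) with hep
  set em : (ℕ → ℝ) → ℕ → ℕ → ℝ := fun x m j => match m with
    | 0 => 0
    | m + 1 => sg j * coef N x m (j / 2) with hem
  have hbp : ∀ x : ℕ → ℝ, ∑ i ∈ range (2 ^ (N + 1)), |Hs (ep x) (N + 1) i| ^ p ≤
      2 * C ^ 2 * (c0 * 2 * ∑ k ∈ range (2 ^ N), |x k| ^ p) := by
    intro x
    refine (shift_bound p C hC hTR (coef N x) (ep x) (fun k => rfl) (fun m j => rfl) N).trans ?_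
    gcongr
    exact Hs_coef_le p hp.le N x
  have hbm : ∀ x : ℕ → ℝ, ∑ i ∈ range (2 ^ (N + 1)), |Hs (em x) (N + 1) i| ^ p ≤
      2 * C ^ 2 * (c0 * 2 * ∑ k ∈ range (2 ^ N), |x k| ^ p) := by
    intro x
    refine (shift_bound p C hC hTR (coef N x) (em x) (fun k => rfl) (fun m j => ?_) N).trans ?_
    · simp only [hem, abs_mul, abs_sg, one_mul]
    gcongr
    exact Hs_coef_le p hp.le N x
  have hec : ∀ i, Hs (ec N a b) (N + 1) i = 1 / 2 * ((Hs (ep a) (N + 1) i + Hs (em a) (N + 1) i) +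
      (Hs (ep b) (N + 1) i + -Hs (em b) (N + 1) i)) := by
    intro i
    have e1 : ∀ m k, ec N a b m k = 1 / 2 * ((ep a m k + em a m k) + (ep b m k + (-1) * em b m k)) := by
      intro m k
      cases m with
      | zero => simp [ec, hep, hem]
      | succ m =>
        simp only [ec, hep, hem, sg]
        split_ifs <;> ring
    rw [Hs_congr _ _ (N + 1) (fun m _ k => e1 m k), Hs_smul (1 / 2), Hs_add, Hs_add, Hs_add, Hs_smul (-1)]
    ring
  have hpt : ∀ i ∈ range (2 ^ (N + 1)), |tarr N a b i| ^ p ≤ c0 * (c0 * (|bas N a| ^ p + |bas N b| ^ p) +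
      c0 * (c0 * (|Hs (ep a) (N + 1) i| ^ p + |Hs (em a) (N + 1) i| ^ p) +
        c0 * (|Hs (ep b) (N + 1) i| ^ p + |Hs (em b) (N + 1) i| ^ p))) := by
    intro i hi
    rw [tarr_eq N a b i (mem_range.mp hi)]
    refine (abs_add_rpow p hp0 _ _).trans ?_
    gcongr ?_ * (?_ + ?_)
    · have h1 : |(√2)⁻¹ * (bas N a + sg (i / 2 ^ N) * bas N b)| ≤
          |bas N a + sg (i / 2 ^ N) * bas N b| := by
        rw [abs_mul]
        have : |(√2)⁻¹| ≤ 1 := by
          rw [abs_of_pos (by positivity)]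
          apply inv_le_one_of_one_le₀
          rw [Real.one_le_sqrt]; norm_num
        calc |(√2)⁻¹| * |bas N a + sg (i / 2 ^ N) * bas N b| ≤ 1 * |bas N a + sg (i / 2 ^ N) * bas N b| := by
              gcongr
          _ = _ := one_mul _
      refine (Real.rpow_le_rpow (abs_nonneg _) h1 hp0.le).trans ?_
      have := abs_add_rpow p hp0 (bas N a) (sg (i / 2 ^ N) * bas N b)
      rwa [abs_mul, abs_sg, one_mul] at this
    · rw [hec]
      have h1 : |1 / 2 * ((Hs (ep a) (N + 1) i + Hs (em a) (N + 1) i) +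
          (Hs (ep b) (N + 1) i + -Hs (em b) (N + 1) i))| ≤ |(Hs (ep a) (N + 1) i + Hs (em a) (N + 1) i) +
          (Hs (ep b) (N + 1) i + -Hs (em b) (N + 1) i)| := by
        rw [abs_mul, abs_of_pos (by norm_num : (0 : ℝ) < 1 / 2)]
        have := abs_nonneg ((Hs (ep a) (N + 1) i + Hs (em a) (N + 1) i) +
          (Hs (ep b) (N + 1) i + -Hs (em b) (N + 1) i))
        linarith
      refine (Real.rpow_le_rpow (abs_nonneg _) h1 hp0.le).trans ?_
      refine (abs_add_rpow p hp0 _ _).trans ?_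
      gcongr ?_ * (?_ + ?_)
      · exact abs_add_rpow p hp0 _ _
      · have := abs_add_rpow p hp0 (Hs (ep b) (N + 1) i) (-Hs (em b) (N + 1) i)
        rwa [abs_neg] at this
  have hbA := bas_le p hp.le N a
  have hbB := bas_le p hp.le N b
  calc ∑ i ∈ range (2 ^ (N + 1)), |tarr N a b i| ^ p
      ≤ ∑ i ∈ range (2 ^ (N + 1)), c0 * (c0 * (|bas N a| ^ p + |bas N b| ^ p) +
      c0 * (c0 * (|Hs (ep a) (N + 1) i| ^ p + |Hs (em a) (N + 1) i| ^ p) +
        c0 * (|Hs (ep b) (N + 1) i| ^ p + |Hs (em b) (N + 1) i| ^ p))) := sum_le_sum hpt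
    _ = c0 * (2 * (c0 * (2 ^ N * |bas N a| ^ p + 2 ^ N * |bas N b| ^ p)) +
      c0 * (c0 * (∑ i ∈ range (2 ^ (N + 1)), |Hs (ep a) (N + 1) i| ^ p +
          ∑ i ∈ range (2 ^ (N + 1)), |Hs (em a) (N + 1) i| ^ p) +
        c0 * (∑ i ∈ range (2 ^ (N + 1)), |Hs (ep b) (N + 1) i| ^ p +
          ∑ i ∈ range (2 ^ (N + 1)), |Hs (em b) (N + 1) i| ^ p))) := by
        rw [← mul_sum, sum_add_distrib, sum_const, card_range, nsmul_eq_mul, ← mul_sum,
          sum_add_distrib, ← mul_sum, ← mul_sum, sum_add_distrib, sum_add_distrib]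
        push_cast; ring
    _ ≤ c0 * (2 * (c0 * (SA + SB)) +
      c0 * (c0 * (2 * C ^ 2 * (c0 * 2 * SA) + 2 * C ^ 2 * (c0 * 2 * SA)) +
        c0 * (2 * C ^ 2 * (c0 * 2 * SB) + 2 * C ^ 2 * (c0 * 2 * SB)))) := by
        gcongr
        · exact hbp a
        · exact hbm a
        · exact hbp b
        · exact hbm b
    _ = c0 * (2 * c0 + c0 * (c0 * (2 * (2 * C ^ 2 * (c0 * 2))))) * (SA + SB) := by ring

/-- bound for the inverse, real case, by duality -/
theorem u_bound (p : ℝ) (hp : 1 < p) : ∃ C : ℝ, 0 < C ∧ ∀ (N : ℕ) (c : ℕ → ℝ),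
    ∑ k ∈ range (2 ^ N), (|u1 N c k| ^ p + |u2 N c k| ^ p) ≤
      C * ∑ i ∈ range (2 ^ (N + 1)), |c i| ^ p := by
  set p' : ℝ := p / (p - 1) with hp'
  have hp1 : 0 < p - 1 := by linarith
  have hp0 : 0 < p := by linarith
  have hp'1 : 1 < p' := by rw [hp', lt_div_iff₀ hp1]; linarith
  have hconj : p'.HolderConjugate p := by
    rw [Real.holderConjugate_iff]
    refine ⟨hp'1, ?_⟩
    rw [hp']; field_simp; ring
  obtain ⟨C, hC, hT⟩ := tarr_bound p' hp'1
  refine ⟨C ^ (p - 1), by positivity, fun N c => ?_⟩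
  set α : ℕ → ℝ := fun k => SignType.sign (u1 N c k) * |u1 N c k| ^ (p - 1) with hα
  set β : ℕ → ℝ := fun k => SignType.sign (u2 N c k) * |u2 N c k| ^ (p - 1) with hβ
  have hmul : ∀ t : ℝ, (SignType.sign t * |t| ^ (p - 1)) * t = |t| ^ p := by
    intro t
    rcases eq_or_ne t 0 with h | h
    · rw [h]; simp [hp0.ne']
    · have h1 : |t| ^ p = |t| ^ (p - 1) * |t| := by
        rw [← Real.rpow_add_one (abs_ne_zero.mpr h)]; ring_nf
      rw [h1]
      have h2 := sign_mul_self t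
      calc (SignType.sign t * |t| ^ (p - 1)) * t = |t| ^ (p - 1) * (SignType.sign t * t) := by ring
        _ = _ := by rw [h2]
  have hpow : ∀ t : ℝ, |(SignType.sign t : ℝ) * |t| ^ (p - 1)| ^ p' = |t| ^ p := by
    intro t
    rcases eq_or_ne t 0 with h | h
    · rw [h]; simp [hp0.ne', (by linarith : p' ≠ 0)]
    · have h1 : |(SignType.sign t : ℝ)| = 1 := by
        rcases lt_or_gt_of_ne h with h2 | h2
        · rw [sign_neg h2]; simp
        · rw [sign_pos h2]; simp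
      rw [abs_mul, h1, one_mul, abs_of_nonneg (by positivity), ← Real.rpow_mul (abs_nonneg _)]
      congr 1
      rw [hp']; field_simp
  set S := ∑ k ∈ range (2 ^ N), (|u1 N c k| ^ p + |u2 N c k| ^ p) with hS
  set R := ∑ i ∈ range (2 ^ (N + 1)), |c i| ^ p with hR
  have hS0 : 0 ≤ S := sum_nonneg fun _ _ => by positivity
  have hR0 : 0 ≤ R := sum_nonneg fun _ _ => by positivity
  have h1 : S = ∑ i ∈ range (2 ^ (N + 1)), tarr N α β i * c i := by
    rw [inner_tarr]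
    refine sum_congr rfl fun k _ => ?_
    rw [← hmul (u1 N c k), ← hmul (u2 N c k)]
  have h2 : S ≤ (∑ i ∈ range (2 ^ (N + 1)), |tarr N α β i| ^ p') ^ (1 / p') * R ^ (1 / p) := by
    rw [h1]
    exact Real.inner_le_Lp_mul_Lq _ _ _ hconj
  have h3 : ∑ i ∈ range (2 ^ (N + 1)), |tarr N α β i| ^ p' ≤ C * S := by
    refine (hT N α β).trans (le_of_eq ?_)
    rw [← sum_add_distrib]
    congr 1
    refine sum_congr rfl fun k _ => ?_
    rw [← hpow (u1 N c k), ← hpow (u2 N c k)]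
  have h4 : S ≤ (C * S) ^ (1 / p') * R ^ (1 / p) := by
    refine h2.trans ?_
    have hnn : 0 ≤ ∑ i ∈ range (2 ^ (N + 1)), |tarr N α β i| ^ p' := sum_nonneg fun _ _ => by positivity
    gcongr
  rcases hS0.eq_or_lt with h0 | hSpos
  · rw [← h0]; positivity
  have h5 : S ^ p ≤ (C * S) ^ (p - 1) * R := by
    calc S ^ p ≤ ((C * S) ^ (1 / p') * R ^ (1 / p)) ^ p := Real.rpow_le_rpow hS0 h4 hp0.le
      _ = (C * S) ^ (p - 1) * R := by
          rw [Real.mul_rpow (by positivity) (by positivity), ← Real.rpow_mul (by positivity),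
            ← Real.rpow_mul hR0, one_div_mul_cancel hp0.ne', Real.rpow_one]
          congr 2
          rw [hp']; field_simp
  have h6 : S ^ p = S ^ (p - 1) * S := by
    rw [← Real.rpow_add_one hSpos.ne']; ring_nf
  rw [h6, Real.mul_rpow hC.le hS0] at h5
  have h7 : S ^ (p - 1) * S ≤ S ^ (p - 1) * (C ^ (p - 1) * R) := by linarith
  exact le_of_mul_le_mul_left h7 (by positivity)

end Pool.Agent.LibHaar
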