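import Mathlib
import Pool.Agent.LibHaar.Bounds

set_option autoImplicit false

namespace Pool.Agent.LibHaar

open Finset MeasureTheory Real

section lin
variable {V : Type*} [AddCommGroup V] [Module ℝ V]

theorem avg_add (a b : ℕ → V) : avg (a + b) = avg a + avg b := by
  ext k; simp only [avg, Pi.add_apply, ← smul_add]; congr 1; abel

theorem dif_add (a b : ℕ → V) : dif (a + b) = dif a + dif b := by
  ext k; simp only [dif, Pi.add_apply, ← smul_add]; congr 1; abel

theorem tarr_add (N : ℕ) : ∀ a b a' b' : ℕ → V,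
    tarr N (a + a') (b + b') = tarr N a b + tarr N a' b' := by
  induction N with
  | zero =>
    intro a b a' b'; ext i
    simp only [tarr, Pi.add_apply, ← smul_add]; congr 1
    rw [smul_add]; abel
  | succ N ih =>
    intro a b a' b'
    apply array_ext
    · rw [avg_tarr, avg_add, avg_add, avg_add, ih, avg_tarr, avg_tarr]
    · rw [dif_tarr, dif_add, dif_add, dif_add, dif_tarr, dif_tarr]
      ext j; simp only [Pi.add_apply]; split_ifs <;> rfl

theorem u1_add (N : ℕ) : ∀ c c' : ℕ → V, u1 N (c + c') = u1 N c + u1 N c' := by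
  induction N with
  | zero =>
    intro c c'; ext i
    simp only [u1, Pi.add_apply, ← smul_add]; congr 1; abel
  | succ N ih =>
    intro c c'
    apply array_ext
    · rw [avg_u1, avg_add, avg_add, ih, avg_u1, avg_u1]
    · rw [dif_u1, dif_add, dif_add, dif_u1, dif_u1]
      ext j; simp only [Pi.add_apply]

theorem u2_add (N : ℕ) : ∀ c c' : ℕ → V, u2 N (c + c') = u2 N c + u2 N c' := by
  induction N with
  | zero =>
    intro c c'; ext i
    simp only [u2, Pi.add_apply, ← smul_add]; congr 1; abel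
  | succ N ih =>
    intro c c'
    apply array_ext
    · rw [avg_u2, avg_add, avg_add, ih, avg_u2, avg_u2]
    · rw [dif_u2, dif_add, dif_add, dif_u2, dif_u2]
      ext j; simp only [Pi.add_apply]

/-- refinement of an array -/
def refn (a : ℕ → V) (k : ℕ) : V := a (k / 2)

theorem avg_refn (a : ℕ → V) : avg (refn a) = a := by
  ext k
  have h1 : 2 * k / 2 = k := by omega
  have h2 : (2 * k + 1) / 2 = k := by omega
  simp only [avg, refn, h1, h2]
  rw [← two_smul ℝ (a k), smul_smul]; norm_num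

theorem dif_refn (a : ℕ → V) : dif (refn a) = 0 := by
  ext k
  have h1 : 2 * k / 2 = k := by omega
  have h2 : (2 * k + 1) / 2 = k := by omega
  simp [dif, refn, h1, h2]

theorem tarr_refn (N : ℕ) (a b : ℕ → V) : tarr (N + 1) (refn a) (refn b) = refn (tarr N a b) := by
  apply array_ext
  · rw [avg_tarr, avg_refn, avg_refn, avg_refn]
  · rw [dif_tarr, dif_refn, dif_refn, dif_refn]
    ext j; simp

theorem u1_refn (N : ℕ) (c : ℕ → V) : u1 (N + 1) (refn c) = refn (u1 N c) := by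
  apply array_ext
  · rw [avg_u1, avg_refn, avg_refn]
  · rw [dif_u1, dif_refn, dif_refn]
    ext j; simp

theorem u2_refn (N : ℕ) (c : ℕ → V) : u2 (N + 1) (refn c) = refn (u2 N c) := by
  apply array_ext
  · rw [avg_u2, avg_refn, avg_refn]
  · rw [dif_u2, dif_refn, dif_refn]
    ext j; simp

theorem tarr_zero (N : ℕ) : tarr N (0 : ℕ → V) 0 = 0 := by
  have := tarr_add N (0 : ℕ → V) 0 0 0
  simpa using this

/-- locality: multiplication by a function constant on coarse intervals commutes with the map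
on arrays with vanishing coarse averages -/
theorem tarr_local (κ : ℕ → ℝ) (N j : ℕ) : ∀ a b : ℕ → V, avg^[j] a = 0 → avg^[j] b = 0 →
    tarr (N + j) (fun k => κ (k / 2 ^ j) • a k) (fun k => κ (k / 2 ^ j) • b k) =
      fun i => κ (i / 2 ^ (j + 1)) • tarr (N + j) a b i := by
  induction j with
  | zero =>
    intro a b ha hb
    simp only [Function.iterate_zero, id_eq] at ha hb
    subst ha; subst hb
    have e : (fun k => κ (k / 2 ^ 0) • (0 : ℕ → V) k) = 0 := by ext k; simp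
    rw [e, add_zero, tarr_zero]
    ext i; simp
  | succ j ih =>
    intro a b ha hb
    rw [Function.iterate_succ_apply] at ha hb
    have e1 : ∀ k, (2 * k) / 2 ^ (j + 1) = k / 2 ^ j := by
      intro k; rw [pow_succ', Nat.mul_div_mul_left _ _ (by norm_num)]
    have e2 : ∀ k, (2 * k + 1) / 2 ^ (j + 1) = k / 2 ^ j := by
      intro k
      rw [pow_succ', ← Nat.div_div_eq_div_mul]; congr 1; omega
    have hav : ∀ x : ℕ → V, avg (fun k => κ (k / 2 ^ (j + 1)) • x k) =
        fun k => κ (k / 2 ^ j) • avg x k := by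
      intro x; ext k
      simp only [avg, e1, e2]
      rw [← smul_add, smul_comm]
    have hdf : ∀ x : ℕ → V, dif (fun k => κ (k / 2 ^ (j + 1)) • x k) =
        fun k => κ (k / 2 ^ j) • dif x k := by
      intro x; ext k
      simp only [dif, e1, e2]
      rw [← smul_sub, smul_comm]
    apply array_ext
    · rw [show N + (j + 1) = N + j + 1 by ring, avg_tarr, hav a, hav b, ih _ _ ha hb]
      have := hav
      ext k
      rw [avg]
      have e3 : ∀ k, (2 * k) / 2 ^ (j + 1 + 1) = k / 2 ^ (j + 1) := by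
        intro k; rw [pow_succ', Nat.mul_div_mul_left _ _ (by norm_num)]
      have e4 : ∀ k, (2 * k + 1) / 2 ^ (j + 1 + 1) = k / 2 ^ (j + 1) := by
        intro k
        rw [pow_succ', ← Nat.div_div_eq_div_mul]; congr 1; omega
      rw [e3, e4, ← smul_add, smul_comm, ← avg_tarr]
      rfl
    · rw [show N + (j + 1) = N + j + 1 by ring, dif_tarr, hdf a, hdf b]
      ext k
      have e3 : ∀ k, (2 * k) / 2 ^ (j + 1 + 1) = k / 2 ^ (j + 1) := by
        intro k; rw [pow_succ', Nat.mul_div_mul_left _ _ (by norm_num)]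
      have e4 : ∀ k, (2 * k + 1) / 2 ^ (j + 1 + 1) = k / 2 ^ (j + 1) := by
        intro k
        rw [pow_succ', ← Nat.div_div_eq_div_mul]; congr 1; omega
      have e5 : k / 2 / 2 ^ j = k / 2 ^ (j + 1) := by
        rw [Nat.div_div_eq_div_mul, pow_succ']
      rw [dif, e3, e4, ← smul_sub, smul_comm]
      have e6 := congrFun (dif_tarr (N + j) a b) k
      rw [dif] at e6
      rw [e6]
      simp only [e5]
      split_ifs <;> rfl

end lin

theorem norm_rpow_le (p : ℝ) (hp : 0 < p) (z : ℂ) : ‖z‖ ^ p ≤ 2 ^ p * (|z.re| ^ p + |z.im| ^ p) := by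
  have h1 : ‖z‖ ≤ |z.re| + |z.im| := Complex.norm_le_abs_re_add_abs_im z
  have h2 := abs_add_rpow p hp (abs z.re) (abs z.im)
  rw [abs_abs, abs_abs, abs_of_nonneg (add_nonneg (abs_nonneg _) (abs_nonneg _))] at h2
  exact (Real.rpow_le_rpow (norm_nonneg _) h1 hp.le).trans h2

theorem tarr_bound_c (p : ℝ) (hp : 1 < p) : ∃ C : ℝ, 0 < C ∧ ∀ (N : ℕ) (a b : ℕ → ℂ),
    ∑ i ∈ range (2 ^ (N + 1)), ‖tarr N a b i‖ ^ p ≤
      C * (∑ k ∈ range (2 ^ N), ‖a k‖ ^ p + ∑ k ∈ range (2 ^ N), ‖b k‖ ^ p) := by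
  obtain ⟨C, hC, h⟩ := tarr_bound p hp
  have hp0 : 0 < p := by linarith
  refine ⟨2 ^ p * (2 * C), by positivity, fun N a b => ?_⟩
  have hre : ∀ i, (tarr N a b i).re = tarr N (fun k => (a k).re) (fun k => (b k).re) i := fun i =>
    (congrFun (tarr_map Complex.reLm N a b) i).symm
  have him : ∀ i, (tarr N a b i).im = tarr N (fun k => (a k).im) (fun k => (b k).im) i := fun i =>
    (congrFun (tarr_map Complex.imLm N a b) i).symm
  have r1 : ∀ x : ℕ → ℂ, ∑ k ∈ range (2 ^ N), |(x k).re| ^ p ≤ ∑ k ∈ range (2 ^ N), ‖x k‖ ^ p :=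
    fun x => sum_le_sum fun k _ => Real.rpow_le_rpow (abs_nonneg _) (Complex.abs_re_le_norm _) hp0.le
  have r2 : ∀ x : ℕ → ℂ, ∑ k ∈ range (2 ^ N), |(x k).im| ^ p ≤ ∑ k ∈ range (2 ^ N), ‖x k‖ ^ p :=
    fun x => sum_le_sum fun k _ => Real.rpow_le_rpow (abs_nonneg _) (Complex.abs_im_le_norm _) hp0.le
  calc ∑ i ∈ range (2 ^ (N + 1)), ‖tarr N a b i‖ ^ p
      ≤ ∑ i ∈ range (2 ^ (N + 1)), 2 ^ p * (|(tarr N a b i).re| ^ p + |(tarr N a b i).im| ^ p) :=
        sum_le_sum fun i _ => norm_rpow_le p hp0 _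
    _ = 2 ^ p * (∑ i ∈ range (2 ^ (N + 1)), |tarr N (fun k => (a k).re) (fun k => (b k).re) i| ^ p +
        ∑ i ∈ range (2 ^ (N + 1)), |tarr N (fun k => (a k).im) (fun k => (b k).im) i| ^ p) := by
        rw [← mul_sum, sum_add_distrib]
        simp_rw [hre, him]
    _ ≤ 2 ^ p * (C * (∑ k ∈ range (2 ^ N), ‖a k‖ ^ p + ∑ k ∈ range (2 ^ N), ‖b k‖ ^ p) +
        C * (∑ k ∈ range (2 ^ N), ‖a k‖ ^ p + ∑ k ∈ range (2 ^ N), ‖b k‖ ^ p)) := by
        gcongr
        · refine (h N _ _).trans ?_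
          exact mul_le_mul_of_nonneg_left (add_le_add (r1 a) (r1 b)) hC.le
        · refine (h N _ _).trans ?_
          exact mul_le_mul_of_nonneg_left (add_le_add (r2 a) (r2 b)) hC.le
    _ = _ := by ring

theorem u_bound_c (p : ℝ) (hp : 1 < p) : ∃ C : ℝ, 0 < C ∧ ∀ (N : ℕ) (c : ℕ → ℂ),
    ∑ k ∈ range (2 ^ N), (‖u1 N c k‖ ^ p + ‖u2 N c k‖ ^ p) ≤
      C * ∑ i ∈ range (2 ^ (N + 1)), ‖c i‖ ^ p := by
  obtain ⟨C, hC, h⟩ := u_bound p hp
  have hp0 : 0 < p := by linarith
  refine ⟨2 ^ p * (2 * C), by positivity, fun N c => ?_⟩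
  have hre1 : ∀ i, (u1 N c i).re = u1 N (fun k => (c k).re) i := fun i =>
    (congrFun (u1_map Complex.reLm N c) i).symm
  have him1 : ∀ i, (u1 N c i).im = u1 N (fun k => (c k).im) i := fun i =>
    (congrFun (u1_map Complex.imLm N c) i).symm
  have hre2 : ∀ i, (u2 N c i).re = u2 N (fun k => (c k).re) i := fun i =>
    (congrFun (u2_map Complex.reLm N c) i).symm
  have him2 : ∀ i, (u2 N c i).im = u2 N (fun k => (c k).im) i := fun i =>
    (congrFun (u2_map Complex.imLm N c) i).symm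
  have r1 : ∑ k ∈ range (2 ^ (N + 1)), |(c k).re| ^ p ≤ ∑ k ∈ range (2 ^ (N + 1)), ‖c k‖ ^ p :=
    sum_le_sum fun k _ => Real.rpow_le_rpow (abs_nonneg _) (Complex.abs_re_le_norm _) hp0.le
  have r2 : ∑ k ∈ range (2 ^ (N + 1)), |(c k).im| ^ p ≤ ∑ k ∈ range (2 ^ (N + 1)), ‖c k‖ ^ p :=
    sum_le_sum fun k _ => Real.rpow_le_rpow (abs_nonneg _) (Complex.abs_im_le_norm _) hp0.le
  calc ∑ k ∈ range (2 ^ N), (‖u1 N c k‖ ^ p + ‖u2 N c k‖ ^ p)
      ≤ ∑ k ∈ range (2 ^ N), (2 ^ p * (|(u1 N c k).re| ^ p + |(u1 N c k).im| ^ p) +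
          2 ^ p * (|(u2 N c k).re| ^ p + |(u2 N c k).im| ^ p)) :=
        sum_le_sum fun i _ => add_le_add (norm_rpow_le p hp0 _) (norm_rpow_le p hp0 _)
    _ = 2 ^ p * (∑ k ∈ range (2 ^ N), (|u1 N (fun k => (c k).re) k| ^ p + |u2 N (fun k => (c k).re) k| ^ p) +
        ∑ k ∈ range (2 ^ N), (|u1 N (fun k => (c k).im) k| ^ p + |u2 N (fun k => (c k).im) k| ^ p)) := by
        rw [← sum_add_distrib, mul_sum]
        refine sum_congr rfl fun k _ => ?_
        rw [hre1, him1, hre2, him2]; ring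
    _ ≤ 2 ^ p * (C * ∑ k ∈ range (2 ^ (N + 1)), ‖c k‖ ^ p +
        C * ∑ k ∈ range (2 ^ (N + 1)), ‖c k‖ ^ p) := by
        gcongr
        · refine (h N _).trans ?_
          exact mul_le_mul_of_nonneg_left r1 hC.le
        · refine (h N _).trans ?_
          exact mul_le_mul_of_nonneg_left r2 hC.le
    _ = _ := by ring

end Pool.Agent.LibHaar
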