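import Mathlib
import Pool.Agent.LibHaar.Complex

set_option autoImplicit false

namespace Pool.Agent.LibHaar

open Finset MeasureTheory Real
open scoped ENNReal NNReal Topology

/-- Lebesgue measure on the unit interval -/
noncomputable abbrev mu : Measure ℝ := (volume : Measure ℝ).restrict (Set.Icc 0 1)

/-- dyadic interval -/
def J (N k : ℕ) : Set ℝ := Set.Ico ((k : ℝ) / 2 ^ N) (((k + 1 : ℕ) : ℝ) / 2 ^ N)

theorem measurableSet_J (N k : ℕ) : MeasurableSet (J N k) := measurableSet_Ico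

theorem floor_of_mem_J {N k : ℕ} {x : ℝ} (hx : x ∈ J N k) : ⌊2 ^ N * x⌋₊ = k := by
  have h2 : (0 : ℝ) < 2 ^ N := by positivity
  obtain ⟨h1, h3⟩ := hx
  rw [div_le_iff₀ h2] at h1
  rw [lt_div_iff₀ h2] at h3
  have h0 : (0 : ℝ) ≤ 2 ^ N * x := by
    have : (0 : ℝ) ≤ k := by positivity
    linarith
  rw [Nat.floor_eq_iff h0]
  push_cast at h3
  constructor <;> linarith

theorem volume_J (N k : ℕ) : volume (J N k) = ENNReal.ofReal (1 / 2 ^ N) := by
  rw [J, Real.volume_Ico]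
  congr 1
  push_cast
  ring

theorem J_subset {N k : ℕ} (hk : k < 2 ^ N) : J N k ⊆ Set.Icc 0 1 := by
  intro x hx
  obtain ⟨h1, h2⟩ := hx
  have h3 : (0 : ℝ) < 2 ^ N := by positivity
  refine ⟨le_trans (by positivity) h1, le_trans h2.le ?_⟩
  rw [div_le_one h3]
  exact_mod_cast hk

theorem mu_restrict_J {N k : ℕ} (hk : k < 2 ^ N) :
    mu.restrict (J N k) = (volume : Measure ℝ).restrict (J N k) := by
  rw [mu, Measure.restrict_restrict (measurableSet_J N k)]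
  congr 1
  exact Set.inter_eq_left.mpr (J_subset hk)

theorem mu_J {N k : ℕ} (hk : k < 2 ^ N) : mu (J N k) = ENNReal.ofReal (1 / 2 ^ N) := by
  rw [mu, Measure.restrict_apply (measurableSet_J N k), Set.inter_eq_left.mpr (J_subset hk), volume_J]

theorem mu_J_zero {N k : ℕ} (hk : 2 ^ N ≤ k) : mu (J N k) = 0 := by
  rw [mu, Measure.restrict_apply (measurableSet_J N k)]
  refine measure_mono_null (t := {(1 : ℝ)}) ?_ (by simp)
  intro x hx
  obtain ⟨⟨h1, -⟩, h2, h3⟩ := hx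
  have h4 : (1 : ℝ) ≤ k / 2 ^ N := by
    rw [le_div_iff₀ (by positivity), one_mul]
    exact_mod_cast hk
  simp only [Set.mem_singleton_iff]
  linarith

theorem lintegral_Ico_eq_sum (g : ℝ → ℝ≥0∞) (N n : ℕ) :
    ∫⁻ x in Set.Ico (0 : ℝ) ((n : ℝ) / 2 ^ N), g x = ∑ k ∈ range n, ∫⁻ x in J N k, g x := by
  induction n with
  | zero => simp
  | succ n ih =>
    rw [sum_range_succ, ← ih, J, ← lintegral_union measurableSet_Ico]
    · rw [Set.Ico_union_Ico_eq_Ico (by positivity)]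
      gcongr
      simp
    · rw [Set.Ico_disjoint_Ico]
      simp

theorem lintegral_mu_eq_sum (g : ℝ → ℝ≥0∞) (N : ℕ) :
    ∫⁻ x, g x ∂mu = ∑ k ∈ range (2 ^ N), ∫⁻ x in J N k, g x ∂mu := by
  have h1 : mu = (volume : Measure ℝ).restrict (Set.Ico 0 1) :=
    Measure.restrict_congr_set Ico_ae_eq_Icc.symm
  have h2 := lintegral_Ico_eq_sum g N (2 ^ N)
  have h3 : (((2 ^ N : ℕ) : ℝ)) / 2 ^ N = 1 := by
    push_cast; field_simp
  rw [h3] at h2
  rw [h1, h2, ← h1]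
  refine sum_congr rfl fun k hk => ?_
  rw [mu_restrict_J (mem_range.mp hk)]

/-- step function of an array -/
noncomputable def stp (N : ℕ) (a : ℕ → ℂ) (x : ℝ) : ℂ := a ⌊2 ^ N * x⌋₊

theorem measurable_stp (N : ℕ) (a : ℕ → ℂ) : Measurable (stp N a) := by
  unfold stp
  exact (measurable_of_countable a).comp (Nat.measurable_floor.comp (measurable_const.mul measurable_id))

theorem stp_refn (N : ℕ) (a : ℕ → ℂ) : stp (N + 1) (refn a) = stp N a := by
  ext x
  simp only [stp, refn]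
  congr 1
  rw [← Nat.floor_div_natCast]
  congr 1
  push_cast
  rw [pow_succ]; ring

theorem lintegral_stp (N : ℕ) (a : ℕ → ℂ) (P : ℝ) :
    ∫⁻ x, ‖stp N a x‖ₑ ^ P ∂mu = ENNReal.ofReal (1 / 2 ^ N) * ∑ k ∈ range (2 ^ N), ‖a k‖ₑ ^ P := by
  rw [lintegral_mu_eq_sum _ N, mul_sum]
  refine sum_congr rfl fun k hk => ?_
  have h1 : ∫⁻ x in J N k, ‖stp N a x‖ₑ ^ P ∂mu = ∫⁻ x in J N k, ‖a k‖ₑ ^ P ∂mu := by
    refine setLIntegral_congr_fun (measurableSet_J N k) fun x hx => ?_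
    simp only [stp, floor_of_mem_J hx]
  rw [h1, setLIntegral_const, mu_J (mem_range.mp hk), mul_comm]

variable {p : ℝ≥0∞}

theorem eLpNorm_stp (hp0 : p ≠ 0) (hpt : p ≠ ∞) (N : ℕ) (a : ℕ → ℂ) :
    eLpNorm (stp N a) p mu ^ p.toReal =
      ENNReal.ofReal (1 / 2 ^ N * ∑ k ∈ range (2 ^ N), ‖a k‖ ^ p.toReal) := by
  have hP : 0 < p.toReal := ENNReal.toReal_pos hp0 hpt
  rw [eLpNorm_eq_lintegral_rpow_enorm_toReal hp0 hpt, ← ENNReal.rpow_mul, one_div,
    inv_mul_cancel₀ hP.ne', ENNReal.rpow_one, lintegral_stp,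
    ENNReal.ofReal_mul (by positivity), ENNReal.ofReal_sum_of_nonneg (fun i _ => by positivity)]
  congr 1
  refine sum_congr rfl fun k _ => ?_
  rw [← ofReal_norm, ENNReal.ofReal_rpow_of_nonneg (norm_nonneg _) hP.le]

theorem memLp_stp (hp0 : p ≠ 0) (hpt : p ≠ ∞) (N : ℕ) (a : ℕ → ℂ) : MemLp (stp N a) p mu := by
  refine ⟨(measurable_stp N a).aestronglyMeasurable, ?_⟩
  have hP : 0 < p.toReal := ENNReal.toReal_pos hp0 hpt
  have h := eLpNorm_stp hp0 hpt N a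
  by_contra hcon
  rw [not_lt, top_le_iff] at hcon
  rw [hcon, ENNReal.top_rpow_of_pos hP] at h
  exact ENNReal.ofReal_ne_top h.symm

end Pool.Agent.LibHaar
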