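import Mathlib
import Pool.Agent.LibHaar.Step

set_option autoImplicit false

namespace Pool.Agent.LibHaar

open Finset MeasureTheory Real Filter
open scoped ENNReal NNReal Topology

/-- average of a function over dyadic intervals -/
noncomputable def ave (N : ℕ) (f : ℝ → ℂ) (k : ℕ) : ℂ := (2 : ℝ) ^ N • ∫ x in J N k, f x ∂mu

theorem ave_zero_of_le {N k : ℕ} (hk : 2 ^ N ≤ k) (f : ℝ → ℂ) : ave N f k = 0 := by
  rw [ave, Measure.restrict_eq_zero.mpr (mu_J_zero hk)]; simp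

theorem ave_congr {N : ℕ} {f g : ℝ → ℂ} (h : f =ᵐ[mu] g) : ave N f = ave N g := by
  ext k
  rw [ave, ave, setIntegral_congr_ae (measurableSet_J N k)]
  filter_upwards [h] with x hx _ using hx

theorem J_union (N k : ℕ) : J N k = J (N + 1) (2 * k) ∪ J (N + 1) (2 * k + 1) := by
  unfold J
  have e1 : ((2 * k : ℕ) : ℝ) / 2 ^ (N + 1) = (k : ℝ) / 2 ^ N := by
    push_cast; rw [pow_succ]; field_simp
  have e2 : ((2 * k + 1 + 1 : ℕ) : ℝ) / 2 ^ (N + 1) = ((k + 1 : ℕ) : ℝ) / 2 ^ N := by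
    push_cast; rw [pow_succ]; field_simp; ring
  rw [e1, e2, ← e1, Set.Ico_union_Ico_eq_Ico]
  · gcongr; simp
  · rw [← e2]; gcongr; simp

theorem J_disj (N k : ℕ) : Disjoint (J (N + 1) (2 * k)) (J (N + 1) (2 * k + 1)) := by
  unfold J
  rw [Set.Ico_disjoint_Ico]
  simp

theorem avg_ave (N : ℕ) {f : ℝ → ℂ} (hf : Integrable f mu) : avg (ave (N + 1) f) = ave N f := by
  ext k
  rw [avg, ave, ave, ave, J_union N k, setIntegral_union (J_disj N k) (measurableSet_J _ _)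
    hf.integrableOn hf.integrableOn, ← smul_add, smul_smul]
  congr 1
  rw [pow_succ]; ring

theorem ave_add (N : ℕ) {f g : ℝ → ℂ} (hf : Integrable f mu) (hg : Integrable g mu) :
    ave N (f + g) = ave N f + ave N g := by
  ext k
  simp only [ave, Pi.add_apply]
  rw [integral_add hf.integrableOn hg.integrableOn, smul_add]

theorem ave_smul (N : ℕ) (c : ℂ) (f : ℝ → ℂ) :
    ave N (c • f) = c • ave N f := by
  ext k
  simp only [ave, Pi.smul_apply]
  rw [integral_smul, smul_comm]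

theorem ave_stp {N k : ℕ} (hk : k < 2 ^ N) (a : ℕ → ℂ) : ave N (stp N a) k = a k := by
  rw [ave]
  have h1 : ∫ x in J N k, stp N a x ∂mu = ∫ x in J N k, a k ∂mu := by
    refine setIntegral_congr_fun (measurableSet_J N k) fun x hx => ?_
    simp only [stp, floor_of_mem_J hx]
  rw [h1, setIntegral_const, Measure.real, mu_J hk, ENNReal.toReal_ofReal (by positivity), smul_smul]
  rw [mul_one_div_cancel (by positivity), one_smul]

variable {p : ℝ≥0∞}

theorem enorm_ave_le (hp1 : 1 ≤ p) (hpt : p ≠ ∞) {N k : ℕ} (hk : k < 2 ^ N) {f : ℝ → ℂ}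
    (hf : AEStronglyMeasurable f mu) :
    ‖ave N f k‖ₑ ^ p.toReal ≤ ENNReal.ofReal (2 ^ N) * ∫⁻ x in J N k, ‖f x‖ₑ ^ p.toReal ∂mu := by
  have hp0 : p ≠ 0 := (lt_of_lt_of_le zero_lt_one hp1).ne'
  have hP : 0 < p.toReal := ENNReal.toReal_pos hp0 hpt
  have h1 : ‖∫ x in J N k, f x ∂mu‖ₑ ≤ eLpNorm f 1 (mu.restrict (J N k)) := by
    rw [eLpNorm_one_eq_lintegral_enorm]
    exact enorm_integral_le_lintegral_enorm _
  have h2 := eLpNorm_le_eLpNorm_mul_rpow_measure_univ hp1 (hf.restrict (s := J N k))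
  rw [Measure.restrict_apply_univ, mu_J hk, ENNReal.toReal_one] at h2
  have h3 := h1.trans h2
  have h4 : ‖ave N f k‖ₑ = ENNReal.ofReal (2 ^ N) * ‖∫ x in J N k, f x ∂mu‖ₑ := by
    rw [ave, enorm_smul]
    congr 1
    rw [Real.enorm_eq_ofReal (by positivity)]
  rw [h4, ENNReal.mul_rpow_of_nonneg _ _ hP.le]
  have h5 : ‖∫ x in J N k, f x ∂mu‖ₑ ^ p.toReal ≤
      (∫⁻ x in J N k, ‖f x‖ₑ ^ p.toReal ∂mu) * ENNReal.ofReal (1 / 2 ^ N) ^ (p.toReal - 1) := by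
    refine (ENNReal.rpow_le_rpow h3 hP.le).trans ?_
    rw [ENNReal.mul_rpow_of_nonneg _ _ hP.le, eLpNorm_eq_lintegral_rpow_enorm_toReal hp0 hpt,
      ← ENNReal.rpow_mul, one_div p.toReal, inv_mul_cancel₀ hP.ne', ENNReal.rpow_one,
      ← ENNReal.rpow_mul]
    apply le_of_eq
    congr 2
    field_simp
  have h6 : ENNReal.ofReal ((2 : ℝ) ^ N) ^ p.toReal * ENNReal.ofReal (1 / 2 ^ N) ^ (p.toReal - 1) =
      ENNReal.ofReal (2 ^ N) := by
    rw [ENNReal.ofReal_rpow_of_pos (by positivity), ENNReal.ofReal_rpow_of_pos (by positivity),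
      ← ENNReal.ofReal_mul (by positivity)]
    congr 1
    rw [Real.div_rpow (by positivity) (by positivity), Real.one_rpow, mul_one_div,
      ← Real.rpow_sub (by positivity)]
    simp
  calc _ ≤ ENNReal.ofReal (2 ^ N) ^ p.toReal *
      ((∫⁻ x in J N k, ‖f x‖ₑ ^ p.toReal ∂mu) * ENNReal.ofReal (1 / 2 ^ N) ^ (p.toReal - 1)) := by
        gcongr
    _ = (ENNReal.ofReal (2 ^ N) ^ p.toReal * ENNReal.ofReal (1 / 2 ^ N) ^ (p.toReal - 1)) *
      ∫⁻ x in J N k, ‖f x‖ₑ ^ p.toReal ∂mu := by ring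
    _ = _ := by rw [h6]

theorem eLpNorm_pow (hp0 : p ≠ 0) (hpt : p ≠ ∞) (f : ℝ → ℂ) :
    eLpNorm f p mu ^ p.toReal = ∫⁻ x, ‖f x‖ₑ ^ p.toReal ∂mu := by
  have hP : 0 < p.toReal := ENNReal.toReal_pos hp0 hpt
  rw [eLpNorm_eq_lintegral_rpow_enorm_toReal hp0 hpt, ← ENNReal.rpow_mul, one_div,
    inv_mul_cancel₀ hP.ne', ENNReal.rpow_one]

theorem sum_ave_le (hp1 : 1 ≤ p) (hpt : p ≠ ∞) (N : ℕ) {f : ℝ → ℂ} (hf : MemLp f p mu) :
    1 / 2 ^ N * ∑ k ∈ range (2 ^ N), ‖ave N f k‖ ^ p.toReal ≤ (eLpNorm f p mu).toReal ^ p.toReal := by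
  have hp0 : p ≠ 0 := (lt_of_lt_of_le zero_lt_one hp1).ne'
  have hP : 0 < p.toReal := ENNReal.toReal_pos hp0 hpt
  rw [ENNReal.toReal_rpow, ← ENNReal.ofReal_le_iff_le_toReal]
  · rw [ENNReal.ofReal_mul (by positivity), ENNReal.ofReal_sum_of_nonneg (fun i _ => by positivity),
      eLpNorm_pow hp0 hpt, lintegral_mu_eq_sum _ N, mul_sum]
    refine sum_le_sum fun k hk => ?_
    rw [← ENNReal.ofReal_rpow_of_nonneg (norm_nonneg _) hP.le, ofReal_norm]
    refine (mul_le_mul_right (enorm_ave_le hp1 hpt (mem_range.mp hk) hf.1) _).trans ?_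
    rw [← mul_assoc, ← ENNReal.ofReal_mul (by positivity), one_div_mul_cancel (by positivity),
      ENNReal.ofReal_one, one_mul]
  · exact ENNReal.rpow_ne_top_of_nonneg hP.le hf.2.ne

end Pool.Agent.LibHaar
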