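import Mathlib
import Pool.Agent.LibHaar.Ave

set_option autoImplicit false

namespace Pool.Agent.LibHaar

open Finset MeasureTheory Real Filter
open scoped ENNReal NNReal Topology

variable {p : ℝ≥0∞}

/-- the step function of an array as an element of `L^p` -/
noncomputable def Bn (hp0 : p ≠ 0) (hpt : p ≠ ∞) (N : ℕ) (a : ℕ → ℂ) : Lp ℂ p mu :=
  (memLp_stp hp0 hpt N a).toLp (stp N a)

theorem coeFn_Bn (hp0 : p ≠ 0) (hpt : p ≠ ∞) (N : ℕ) (a : ℕ → ℂ) :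
    (Bn hp0 hpt N a : ℝ → ℂ) =ᵐ[mu] stp N a := MemLp.coeFn_toLp _

theorem norm_Bn (hp0 : p ≠ 0) (hpt : p ≠ ∞) (N : ℕ) (a : ℕ → ℂ) :
    ‖Bn hp0 hpt N a‖ ^ p.toReal = 1 / 2 ^ N * ∑ k ∈ range (2 ^ N), ‖a k‖ ^ p.toReal := by
  rw [Bn, Lp.norm_toLp, ENNReal.toReal_rpow, eLpNorm_stp hp0 hpt, ENNReal.toReal_ofReal (by positivity)]

theorem Bn_add (hp0 : p ≠ 0) (hpt : p ≠ ∞) (N : ℕ) (a b : ℕ → ℂ) :
    Bn hp0 hpt N (a + b) = Bn hp0 hpt N a + Bn hp0 hpt N b := by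
  rw [Bn, Bn, Bn, ← MemLp.toLp_add]
  rfl

theorem Bn_smul (hp0 : p ≠ 0) (hpt : p ≠ ∞) (N : ℕ) (c : ℂ) (a : ℕ → ℂ) :
    Bn hp0 hpt N (c • a) = c • Bn hp0 hpt N a := by
  rw [Bn, Bn, ← MemLp.toLp_const_smul]
  rfl

theorem Bn_refn (hp0 : p ≠ 0) (hpt : p ≠ ∞) (N : ℕ) (a : ℕ → ℂ) :
    Bn hp0 hpt (N + 1) (refn a) = Bn hp0 hpt N a := by
  rw [Bn, Bn]
  congr 1
  exact stp_refn N a

variable [hp1 : Fact (1 ≤ p)]

theorem Bn_congr (hp0 : p ≠ 0) (hpt : p ≠ ∞) (N : ℕ) {a b : ℕ → ℂ} (h : ∀ k < 2 ^ N, a k = b k) :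
    Bn hp0 hpt N a = Bn hp0 hpt N b := by
  have hP : 0 < p.toReal := ENNReal.toReal_pos hp0 hpt
  have h1 : Bn hp0 hpt N (a + (-1 : ℂ) • b) = 0 := by
    have h2 := norm_Bn hp0 hpt N (a + (-1 : ℂ) • b)
    have h3 : ∑ k ∈ range (2 ^ N), ‖(a + (-1 : ℂ) • b) k‖ ^ p.toReal = 0 := by
      refine sum_eq_zero fun k hk => ?_
      rw [Pi.add_apply, Pi.smul_apply, h k (mem_range.mp hk)]
      simp [hP.ne']
    rw [h3, mul_zero, Real.rpow_eq_zero (norm_nonneg _) hP.ne'] at h2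
    rwa [Lp.norm_eq_zero_iff (by positivity)] at h2
  rw [Bn_add, Bn_smul] at h1
  rw [neg_one_smul] at h1
  rwa [← sub_eq_add_neg, sub_eq_zero] at h1

/-- the array of dyadic averages -/
noncomputable def An (N : ℕ) (f : Lp ℂ p mu) : ℕ → ℂ := ave N f

omit hp1 in
theorem An_def (N : ℕ) (f : Lp ℂ p mu) : An N f = ave N f := rfl

theorem An_add (N : ℕ) (f g : Lp ℂ p mu) : An N (f + g) = An N f + An N g := by
  rw [An, ave_congr (Lp.coeFn_add f g), ave_add N ((Lp.memLp f).integrable hp1.out)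
    ((Lp.memLp g).integrable hp1.out)]
  rfl

omit hp1 in
theorem An_smul (N : ℕ) (c : ℂ) (f : Lp ℂ p mu) : An N (c • f) = c • An N f := by
  rw [An, ave_congr (Lp.coeFn_smul c f), ave_smul]
  rfl

theorem An_sub (N : ℕ) (f g : Lp ℂ p mu) : An N (f - g) = An N f - An N g := by
  have h := An_add N (f - g) g
  rw [sub_add_cancel] at h
  rw [h]; simp

theorem avg_An (N : ℕ) (f : Lp ℂ p mu) : avg (An (N + 1) f) = An N f :=
  avg_ave N ((Lp.memLp f).integrable hp1.out)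

omit hp1 in
theorem An_Bn (hp0 : p ≠ 0) (hpt : p ≠ ∞) {N k : ℕ} (hk : k < 2 ^ N) (a : ℕ → ℂ) :
    An N (Bn hp0 hpt N a) k = a k := by
  rw [An, ave_congr (coeFn_Bn hp0 hpt N a), ave_stp hk]

omit hp1 in
theorem An_zero_of_le {N k : ℕ} (hk : 2 ^ N ≤ k) (f : Lp ℂ p mu) : An N f k = 0 :=
  ave_zero_of_le hk _

theorem sum_An_le (hpt : p ≠ ∞) (N : ℕ) (f : Lp ℂ p mu) :
    1 / 2 ^ N * ∑ k ∈ range (2 ^ N), ‖An N f k‖ ^ p.toReal ≤ ‖f‖ ^ p.toReal := by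
  rw [Lp.norm_def]
  exact sum_ave_le hp1.out hpt N (Lp.memLp f)

/-- conditional expectation onto the dyadic step functions -/
noncomputable def Pn (hp0 : p ≠ 0) (hpt : p ≠ ∞) (N : ℕ) (f : Lp ℂ p mu) : Lp ℂ p mu :=
  Bn hp0 hpt N (An N f)

theorem norm_Pn_le (hp0 : p ≠ 0) (hpt : p ≠ ∞) (N : ℕ) (f : Lp ℂ p mu) :
    ‖Pn hp0 hpt N f‖ ≤ ‖f‖ := by
  have hP : 0 < p.toReal := ENNReal.toReal_pos hp0 hpt
  rw [← Real.rpow_le_rpow_iff (norm_nonneg _) (norm_nonneg _) hP, Pn, norm_Bn]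
  exact sum_An_le hpt N f

theorem Pn_add (hp0 : p ≠ 0) (hpt : p ≠ ∞) (N : ℕ) (f g : Lp ℂ p mu) :
    Pn hp0 hpt N (f + g) = Pn hp0 hpt N f + Pn hp0 hpt N g := by
  rw [Pn, An_add, Bn_add]; rfl

omit hp1 in
theorem Pn_smul (hp0 : p ≠ 0) (hpt : p ≠ ∞) (N : ℕ) (c : ℂ) (f : Lp ℂ p mu) :
    Pn hp0 hpt N (c • f) = c • Pn hp0 hpt N f := by
  rw [Pn, An_smul, Bn_smul]; rfl

theorem Pn_sub (hp0 : p ≠ 0) (hpt : p ≠ ∞) (N : ℕ) (f g : Lp ℂ p mu) :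
    Pn hp0 hpt N (f - g) = Pn hp0 hpt N f - Pn hp0 hpt N g := by
  have h := Pn_add hp0 hpt N (f - g) g
  rw [sub_add_cancel] at h
  rw [h]; simp

theorem J_cover {N : ℕ} {x : ℝ} (h0 : 0 ≤ x) (h1 : x < 1) : ∃ k < 2 ^ N, x ∈ J N k := by
  have h2 : (0 : ℝ) < 2 ^ N := by positivity
  refine ⟨⌊2 ^ N * x⌋₊, ?_, ?_⟩
  · rw [Nat.floor_lt (by positivity)]
    push_cast
    nlinarith
  · constructor
    · rw [div_le_iff₀ h2]
      have := Nat.floor_le (show 0 ≤ 2 ^ N * x by positivity)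
      linarith
    · rw [lt_div_iff₀ h2]
      have := Nat.lt_floor_add_one (2 ^ N * x)
      push_cast
      linarith

theorem norm_ave_sub_le {g : ℝ → ℂ} (hg : Integrable g mu) {ε : ℝ} {N : ℕ}
    (h : ∀ x ∈ Set.Icc (0 : ℝ) 1, ∀ y ∈ Set.Icc (0 : ℝ) 1, |x - y| ≤ 1 / 2 ^ N → ‖g x - g y‖ ≤ ε)
    {x : ℝ} (h0 : 0 ≤ x) (h1 : x < 1) : ‖stp N (ave N g) x - g x‖ ≤ ε := by
  obtain ⟨k, hk, hx⟩ := J_cover (N := N) h0 h1
  rw [stp, floor_of_mem_J hx, ave]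
  have hm : mu.real (J N k) = 1 / 2 ^ N := by
    rw [Measure.real, mu_J hk, ENNReal.toReal_ofReal (by positivity)]
  have h2 : g x = (2 : ℝ) ^ N • ∫ y in J N k, g x ∂mu := by
    rw [setIntegral_const, hm, smul_smul, mul_one_div_cancel (by positivity), one_smul]
  have hlt : mu (J N k) < ∞ := by rw [mu_J hk]; exact ENNReal.ofReal_lt_top
  have h3 : ‖∫ y in J N k, (g y - g x) ∂mu‖ ≤ ε * mu.real (J N k) := by
    refine norm_setIntegral_le_of_norm_le_const hlt ?_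
    intro y hy
    refine h y (J_subset hk hy) x ⟨h0, h1.le⟩ ?_
    obtain ⟨hy1, hy2⟩ := hy
    obtain ⟨hx1, hx2⟩ := hx
    have e : ((k + 1 : ℕ) : ℝ) / 2 ^ N = (k : ℝ) / 2 ^ N + 1 / 2 ^ N := by push_cast; ring
    rw [e] at hy2 hx2
    rw [abs_le]; constructor <;> linarith
  rw [h2, ← smul_sub, ← integral_sub hg.integrableOn (integrableOn_const hlt.ne)]
  rw [norm_smul, Real.norm_of_nonneg (by positivity)]
  calc (2 : ℝ) ^ N * ‖∫ y in J N k, (g y - g x) ∂mu‖ ≤ 2 ^ N * (ε * mu.real (J N k)) := by gcongr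
    _ = ε := by rw [hm]; field_simp

theorem Pn_tendsto (hp0 : p ≠ 0) (hpt : p ≠ ∞) (f : Lp ℂ p mu) :
    Tendsto (fun N => Pn hp0 hpt N f) atTop (𝓝 f) := by
  rw [Metric.tendsto_atTop]
  intro ε hε
  obtain ⟨g, hgs, hgf, hgc, hgm⟩ := (Lp.memLp f).exists_hasCompactSupport_eLpNorm_sub_le hpt
    (ε := ENNReal.ofReal (ε / 4)) (by simpa using hε)
  have huc : UniformContinuous g := hgs.uniformContinuous_of_continuous hgc
  rw [Metric.uniformContinuous_iff] at huc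
  obtain ⟨δ, hδ, huc⟩ := huc (ε / 4) (by positivity)
  obtain ⟨N0, hN0⟩ := exists_pow_lt_of_lt_one hδ (show (1 / 2 : ℝ) < 1 by norm_num)
  refine ⟨N0, fun N hN => ?_⟩
  set G : Lp ℂ p mu := hgm.toLp g with hG
  have h1 : ‖f - G‖ ≤ ε / 4 := by
    rw [Lp.norm_def]
    have h2 : eLpNorm (f - G : Lp ℂ p mu) p mu = eLpNorm ((f : ℝ → ℂ) - g) p mu := by
      apply eLpNorm_congr_ae
      filter_upwards [Lp.coeFn_sub f G, hgm.coeFn_toLp] with x hx1 hx2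
      rw [hx1, Pi.sub_apply, Pi.sub_apply, hG, hx2]
    rw [h2]
    refine (ENNReal.toReal_mono ENNReal.ofReal_ne_top hgf).trans ?_
    rw [ENNReal.toReal_ofReal (by positivity)]
  have h2 : ‖Pn hp0 hpt N G - G‖ ≤ ε / 4 := by
    have hb : ∀ᵐ x ∂mu, ‖(Pn hp0 hpt N G - G : Lp ℂ p mu) x‖ ≤ ε / 4 := by
      have h01 : ∀ᵐ x ∂mu, x ∈ Set.Ico (0 : ℝ) 1 := by
        rw [mu, Measure.restrict_congr_set Ico_ae_eq_Icc.symm]
        exact ae_restrict_mem measurableSet_Ico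
      filter_upwards [Lp.coeFn_sub (Pn hp0 hpt N G) G, hgm.coeFn_toLp,
        coeFn_Bn hp0 hpt N (An N G), h01] with x hx1 hx2 hx3 hx4
      rw [hx1, Pi.sub_apply, Pn, hx3, hG, hx2, An, ave_congr hgm.coeFn_toLp]
      refine norm_ave_sub_le (hgm.integrable hp1.out) ?_ hx4.1 hx4.2
      intro x _ y _ hxy
      have h3 : dist x y < δ := by
        rw [Real.dist_eq]
        refine lt_of_le_of_lt hxy (lt_of_le_of_lt ?_ hN0)
        rw [one_div_pow]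
        gcongr
        norm_num
      have := (huc h3).le
      rwa [dist_eq_norm] at this
    refine (Lp.norm_le_of_ae_bound (by positivity) hb).trans ?_
    have h4 : (measureUnivNNReal mu : ℝ) = 1 := by
      have : mu Set.univ = 1 := by simp [mu]
      simp [measureUnivNNReal, this]
    rw [h4, Real.one_rpow, one_mul]
  rw [dist_eq_norm]
  calc ‖Pn hp0 hpt N f - f‖ = ‖Pn hp0 hpt N (f - G) + (Pn hp0 hpt N G - G) - (f - G)‖ := by
        rw [Pn_sub]; congr 1; abel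
    _ ≤ ‖Pn hp0 hpt N (f - G)‖ + ‖Pn hp0 hpt N G - G‖ + ‖f - G‖ := by
        refine (norm_sub_le _ _).trans ?_
        gcongr
        exact norm_add_le _ _
    _ ≤ ‖f - G‖ + ‖Pn hp0 hpt N G - G‖ + ‖f - G‖ := by
        gcongr
        exact norm_Pn_le _ _ _ _
    _ < ε := by linarith

end Pool.Agent.LibHaar
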