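import Mathlib
import Pool.Agent.LibHaar.Expect

set_option autoImplicit false

namespace Pool.Agent.LibHaar

open Finset MeasureTheory Real Filter
open scoped ENNReal NNReal Topology

/-- strong limits of uniformly bounded schemes -/
theorem exists_limit {E F : Type*} [NormedAddCommGroup E] [NormedSpace ℂ E]
    [NormedAddCommGroup F] [NormedSpace ℂ F] [CompleteSpace F]
    (L : ℕ → E →ₗ[ℂ] F) (C : ℝ) (_hC : 0 ≤ C) (hL : ∀ N x, ‖L N x‖ ≤ C * ‖x‖)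
    (Q : ℕ → E → E) (hQ : ∀ x, Tendsto (fun N => Q N x) atTop (𝓝 x))
    (hLQ : ∀ M N, N ≤ M → ∀ x, L M (Q N x) = L N x) :
    ∃ T : E →L[ℂ] F, (∀ x, Tendsto (fun N => L N x) atTop (𝓝 (T x))) ∧ ∀ x, ‖T x‖ ≤ C * ‖x‖ := by
  have hc : ∀ x, CauchySeq (fun N => L N x) := by
    intro x
    have h0 : Tendsto (fun N => C * ‖x - Q N x‖) atTop (𝓝 0) := by
      have h1 : Tendsto (fun N => x - Q N x) atTop (𝓝 (x - x)) := tendsto_const_nhds.sub (hQ x)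
      rw [sub_self] at h1
      have h2 := (h1.norm).const_mul C
      simpa using h2
    rw [Metric.cauchySeq_iff']
    intro ε hε
    obtain ⟨N, hN⟩ := ((tendsto_order.mp h0).2 ε hε).exists
    refine ⟨N, fun n hn => ?_⟩
    rw [dist_eq_norm, ← hLQ n N hn x, ← map_sub]
    exact lt_of_le_of_lt (hL _ _) hN
  choose t ht using fun x => cauchySeq_tendsto_of_complete (hc x)
  have hlim : Tendsto (fun N x => L N x) atTop (𝓝 t) := tendsto_pi_nhds.mpr ht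
  refine ⟨(linearMapOfTendsto t L hlim).mkContinuous C ?_, fun x => ht x, ?_⟩
  · intro x
    exact le_of_tendsto (ht x).norm (Eventually.of_forall fun N => hL N x)
  · intro x
    exact le_of_tendsto (ht x).norm (Eventually.of_forall fun N => hL N x)

theorem tarr_smulc (N : ℕ) (c : ℂ) (a b : ℕ → ℂ) : tarr N (c • a) (c • b) = c • tarr N a b :=
  tarr_map (LinearMap.mulLeft ℝ c) N a b

theorem u1_smulc (N : ℕ) (c : ℂ) (a : ℕ → ℂ) : u1 N (c • a) = c • u1 N a :=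
  u1_map (LinearMap.mulLeft ℝ c) N a

theorem u2_smulc (N : ℕ) (c : ℂ) (a : ℕ → ℂ) : u2 N (c • a) = c • u2 N a :=
  u2_map (LinearMap.mulLeft ℝ c) N a

variable {p : ℝ≥0∞} [hp1 : Fact (1 ≤ p)]

omit hp1 in
theorem An_succ_Bn (hp0 : p ≠ 0) (hpt : p ≠ ∞) {N k : ℕ} (hk : k < 2 ^ (N + 1)) (a : ℕ → ℂ) :
    An (N + 1) (Bn hp0 hpt N a) k = refn a k := by
  rw [← Bn_refn, An_Bn hp0 hpt hk]

omit hp1 in
theorem Bn_inj (hp0 : p ≠ 0) (hpt : p ≠ ∞) (N : ℕ) (f : Lp ℂ p mu) :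
    An N (Pn hp0 hpt N f) = An N f := by
  ext k
  rcases lt_or_ge k (2 ^ N) with h | h
  · rw [Pn, An_Bn hp0 hpt h]
  · rw [An_zero_of_le h, An_zero_of_le h]

/-- `P_{M} P_N = P_N` for `N ≤ M` in the form needed. -/
theorem Pn_Pn (hp0 : p ≠ 0) (hpt : p ≠ ∞) {M N : ℕ} (h : N ≤ M) (f : Lp ℂ p mu) :
    Pn hp0 hpt M (Pn hp0 hpt N f) = Pn hp0 hpt N f := by
  induction M, h using Nat.le_induction with
  | base => rw [Pn, Bn_inj, Pn]
  | succ M h ih =>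
    have h1 : Pn hp0 hpt N f = Bn hp0 hpt M (An M (Pn hp0 hpt N f)) := ih.symm
    have h2 : Pn hp0 hpt (M + 1) (Bn hp0 hpt M (An M (Pn hp0 hpt N f))) =
        Bn hp0 hpt M (An M (Pn hp0 hpt N f)) := by
      rw [Pn, Bn_congr hp0 hpt (M + 1) (b := refn (An M (Pn hp0 hpt N f))) (fun k hk =>
        An_succ_Bn hp0 hpt hk _), Bn_refn]
    rw [← h1] at h2
    exact h2

/-- finite level operators -/
noncomputable def Tl (hp0 : p ≠ 0) (hpt : p ≠ ∞) (N : ℕ) : (Lp ℂ p mu × Lp ℂ p mu) →ₗ[ℂ] Lp ℂ p mu where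
  toFun x := Bn hp0 hpt (N + 1) (tarr N (An N x.1) (An N x.2))
  map_add' x y := by rw [Prod.fst_add, Prod.snd_add, An_add, An_add, tarr_add, Bn_add]
  map_smul' c x := by
    rw [Prod.smul_fst, Prod.smul_snd, An_smul, An_smul, tarr_smulc, Bn_smul]; rfl

/-- finite level inverse operators -/
noncomputable def Ul (hp0 : p ≠ 0) (hpt : p ≠ ∞) (N : ℕ) : Lp ℂ p mu →ₗ[ℂ] (Lp ℂ p mu × Lp ℂ p mu) where
  toFun x := (Bn hp0 hpt N (u1 N (An (N + 1) x)), Bn hp0 hpt N (u2 N (An (N + 1) x)))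
  map_add' x y := by
    rw [An_add, u1_add, u2_add, Bn_add, Bn_add]; rfl
  map_smul' c x := by
    rw [An_smul, u1_smulc, u2_smulc, Bn_smul, Bn_smul]; rfl

theorem Tl_apply (hp0 : p ≠ 0) (hpt : p ≠ ∞) (N : ℕ) (x : Lp ℂ p mu × Lp ℂ p mu) :
    Tl hp0 hpt N x = Bn hp0 hpt (N + 1) (tarr N (An N x.1) (An N x.2)) := rfl

theorem Ul_apply (hp0 : p ≠ 0) (hpt : p ≠ ∞) (N : ℕ) (x : Lp ℂ p mu) :
    Ul hp0 hpt N x = (Bn hp0 hpt N (u1 N (An (N + 1) x)), Bn hp0 hpt N (u2 N (An (N + 1) x))) := rfl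

theorem Tl_bound (hp0 : p ≠ 0) (hpt : p ≠ ∞) (hP : 1 < p.toReal) : ∃ C : ℝ, 0 < C ∧
    ∀ N (x : Lp ℂ p mu × Lp ℂ p mu), ‖Tl hp0 hpt N x‖ ≤ C * ‖x‖ := by
  obtain ⟨C, hC, h⟩ := tarr_bound_c p.toReal hP
  have hP0 : 0 < p.toReal := by linarith
  refine ⟨C ^ (p.toReal)⁻¹, by positivity, fun N x => ?_⟩
  rw [← Real.rpow_le_rpow_iff (norm_nonneg _) (by positivity) hP0, Real.mul_rpow (by positivity)
    (norm_nonneg _), ← Real.rpow_mul hC.le, inv_mul_cancel₀ hP0.ne', Real.rpow_one, Tl_apply, norm_Bn]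
  have h1 := h N (An N x.1) (An N x.2)
  have h2 := sum_An_le hpt N x.1
  have h3 := sum_An_le hpt N x.2
  have h4 : ‖x.1‖ ^ p.toReal ≤ ‖x‖ ^ p.toReal :=
    Real.rpow_le_rpow (norm_nonneg _) (norm_fst_le x) hP0.le
  have h5 : ‖x.2‖ ^ p.toReal ≤ ‖x‖ ^ p.toReal :=
    Real.rpow_le_rpow (norm_nonneg _) (norm_snd_le x) hP0.le
  calc (1 : ℝ) / 2 ^ (N + 1) * ∑ k ∈ range (2 ^ (N + 1)), ‖tarr N (An N x.1) (An N x.2) k‖ ^ p.toReal
      ≤ 1 / 2 ^ (N + 1) * (C * (∑ k ∈ range (2 ^ N), ‖An N x.1 k‖ ^ p.toReal +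
        ∑ k ∈ range (2 ^ N), ‖An N x.2 k‖ ^ p.toReal)) := by gcongr
    _ = C / 2 * (1 / 2 ^ N * ∑ k ∈ range (2 ^ N), ‖An N x.1 k‖ ^ p.toReal +
        1 / 2 ^ N * ∑ k ∈ range (2 ^ N), ‖An N x.2 k‖ ^ p.toReal) := by
        rw [pow_succ]; field_simp
    _ ≤ C / 2 * (‖x‖ ^ p.toReal + ‖x‖ ^ p.toReal) := by
        gcongr
        · exact h2.trans h4
        · exact h3.trans h5
    _ = _ := by ring

theorem Ul_bound (hp0 : p ≠ 0) (hpt : p ≠ ∞) (hP : 1 < p.toReal) : ∃ C : ℝ, 0 < C ∧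
    ∀ N (x : Lp ℂ p mu), ‖Ul hp0 hpt N x‖ ≤ C * ‖x‖ := by
  obtain ⟨C, hC, h⟩ := u_bound_c p.toReal hP
  have hP0 : 0 < p.toReal := by linarith
  refine ⟨(2 * C) ^ (p.toReal)⁻¹, by positivity, fun N x => ?_⟩
  have h2 := sum_An_le hpt (N + 1) x
  have h1 := h N (An (N + 1) x)
  have key : ∀ y : ℕ → ℂ, ∑ k ∈ range (2 ^ N), ‖y k‖ ^ p.toReal ≤
      C * ∑ i ∈ range (2 ^ (N + 1)), ‖An (N + 1) x i‖ ^ p.toReal →
      ‖Bn hp0 hpt N y‖ ≤ (2 * C) ^ (p.toReal)⁻¹ * ‖x‖ := by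
    intro y hy
    rw [← Real.rpow_le_rpow_iff (norm_nonneg _) (by positivity) hP0, Real.mul_rpow (by positivity)
      (norm_nonneg _), ← Real.rpow_mul (by positivity), inv_mul_cancel₀ hP0.ne', Real.rpow_one, norm_Bn]
    calc (1 : ℝ) / 2 ^ N * ∑ k ∈ range (2 ^ N), ‖y k‖ ^ p.toReal
        ≤ 1 / 2 ^ N * (C * ∑ i ∈ range (2 ^ (N + 1)), ‖An (N + 1) x i‖ ^ p.toReal) := by gcongr
      _ = 2 * C * (1 / 2 ^ (N + 1) * ∑ i ∈ range (2 ^ (N + 1)), ‖An (N + 1) x i‖ ^ p.toReal) := by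
          generalize ∑ i ∈ range (2 ^ (N + 1)), ‖An (N + 1) x i‖ ^ p.toReal = Z
          rw [pow_succ]; field_simp
      _ ≤ _ := by gcongr
  rw [Ul_apply, Prod.norm_def, max_le_iff]
  refine ⟨key _ (le_trans ?_ h1), key _ (le_trans ?_ h1)⟩
  · exact sum_le_sum fun k _ => le_add_of_nonneg_right (by positivity)
  · exact sum_le_sum fun k _ => le_add_of_nonneg_left (by positivity)

theorem Tl_succ (hp0 : p ≠ 0) (hpt : p ≠ ∞) (M : ℕ) (x : Lp ℂ p mu × Lp ℂ p mu) :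
    Tl hp0 hpt (M + 1) (Pn hp0 hpt M x.1, Pn hp0 hpt M x.2) = Tl hp0 hpt M x := by
  rw [Tl_apply, Tl_apply, ← Bn_refn hp0 hpt (M + 1), ← tarr_refn]
  refine Bn_congr hp0 hpt _ fun i hi => ?_
  exact tarr_congr (M + 1) _ _ _ _ (fun k hk => An_succ_Bn hp0 hpt hk _)
    (fun k hk => An_succ_Bn hp0 hpt hk _) i hi

theorem Tl_Pn (hp0 : p ≠ 0) (hpt : p ≠ ∞) (M N : ℕ) (h : N ≤ M) (x : Lp ℂ p mu × Lp ℂ p mu) :
    Tl hp0 hpt M (Pn hp0 hpt N x.1, Pn hp0 hpt N x.2) = Tl hp0 hpt N x := by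
  induction M, h using Nat.le_induction with
  | base => rw [Tl_apply, Tl_apply, Bn_inj, Bn_inj]
  | succ M h ih =>
    have h1 := Tl_succ hp0 hpt M (Pn hp0 hpt N x.1, Pn hp0 hpt N x.2)
    simp only [Pn_Pn hp0 hpt h] at h1
    rw [h1, ih]

theorem Ul_succ (hp0 : p ≠ 0) (hpt : p ≠ ∞) (M : ℕ) (x : Lp ℂ p mu) :
    Ul hp0 hpt (M + 1) (Pn hp0 hpt (M + 1) x) = Ul hp0 hpt M x := by
  rw [Ul_apply, Ul_apply, ← Bn_refn hp0 hpt M, ← Bn_refn hp0 hpt M, ← u1_refn, ← u2_refn]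
  refine Prod.ext ?_ ?_
  · refine Bn_congr hp0 hpt _ fun i hi => ?_
    exact u1_congr (M + 1) _ _ (fun k hk => An_succ_Bn hp0 hpt hk _) i hi
  · refine Bn_congr hp0 hpt _ fun i hi => ?_
    exact u2_congr (M + 1) _ _ (fun k hk => An_succ_Bn hp0 hpt hk _) i hi

theorem Ul_Pn (hp0 : p ≠ 0) (hpt : p ≠ ∞) (M N : ℕ) (h : N ≤ M) (x : Lp ℂ p mu) :
    Ul hp0 hpt M (Pn hp0 hpt (N + 1) x) = Ul hp0 hpt N x := by
  induction M, h using Nat.le_induction with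
  | base => rw [Ul_apply, Ul_apply, Bn_inj]
  | succ M h ih =>
    have h1 := Ul_succ hp0 hpt M (Pn hp0 hpt (N + 1) x)
    rw [Pn_Pn hp0 hpt (by omega)] at h1
    rw [h1, ih]

theorem Ul_Tl (hp0 : p ≠ 0) (hpt : p ≠ ∞) (N : ℕ) (x : Lp ℂ p mu × Lp ℂ p mu) :
    Ul hp0 hpt N (Tl hp0 hpt N x) = (Pn hp0 hpt N x.1, Pn hp0 hpt N x.2) := by
  rw [Ul_apply]
  refine Prod.ext ?_ ?_
  · rw [Pn]
    conv_rhs => rw [← u1_tarr N (An N x.1) (An N x.2)]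
    refine Bn_congr hp0 hpt _ fun i hi => ?_
    exact u1_congr N _ _ (fun k hk => An_Bn hp0 hpt hk _) i hi
  · show _ = Bn hp0 hpt N (An N x.2)
    conv_rhs => rw [← u2_tarr N (An N x.1) (An N x.2)]
    refine Bn_congr hp0 hpt _ fun i hi => ?_
    exact u2_congr N _ _ (fun k hk => An_Bn hp0 hpt hk _) i hi

theorem Tl_Ul (hp0 : p ≠ 0) (hpt : p ≠ ∞) (N : ℕ) (x : Lp ℂ p mu) :
    Tl hp0 hpt N (Ul hp0 hpt N x) = Pn hp0 hpt (N + 1) x := by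
  rw [Tl_apply, Pn]
  refine Bn_congr hp0 hpt _ fun i hi => ?_
  conv_rhs => rw [← tarr_u N (An (N + 1) x)]
  exact tarr_congr N _ _ _ _ (fun k hk => An_Bn hp0 hpt hk _) (fun k hk => An_Bn hp0 hpt hk _) i hi

/-- the isomorphism -/
theorem exists_iso (hp0 : p ≠ 0) (hpt : p ≠ ∞) (hP : 1 < p.toReal) :
    ∃ S : (Lp ℂ p mu × Lp ℂ p mu) ≃L[ℂ] Lp ℂ p mu,
      ∀ x, Tendsto (fun N => Tl hp0 hpt N x) atTop (𝓝 (S x)) := by
  obtain ⟨C, hC, hTb⟩ := Tl_bound hp0 hpt hP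
  obtain ⟨D, hD, hUb⟩ := Ul_bound hp0 hpt hP
  obtain ⟨T, hT, -⟩ := exists_limit (Tl hp0 hpt) C hC.le hTb
    (fun N x => (Pn hp0 hpt N x.1, Pn hp0 hpt N x.2))
    (fun x => (Pn_tendsto hp0 hpt x.1).prodMk_nhds (Pn_tendsto hp0 hpt x.2)) (Tl_Pn hp0 hpt)
  obtain ⟨U, hU, -⟩ := exists_limit (Ul hp0 hpt) D hD.le hUb
    (fun N x => Pn hp0 hpt (N + 1) x)
    (fun x => (tendsto_add_atTop_iff_nat 1).mpr (Pn_tendsto hp0 hpt x)) (Ul_Pn hp0 hpt)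
  have hUT : ∀ x, U (T x) = x := by
    intro x
    have h1 : Tendsto (fun N => Ul hp0 hpt N (Tl hp0 hpt N x)) atTop (𝓝 (U (T x))) := by
      have h2 : Tendsto (fun N => Ul hp0 hpt N (Tl hp0 hpt N x - T x)) atTop (𝓝 0) := by
        rw [tendsto_zero_iff_norm_tendsto_zero]
        have h3 : Tendsto (fun N => D * ‖Tl hp0 hpt N x - T x‖) atTop (𝓝 0) := by
          have h4 := ((hT x).sub_const (T x)).norm.const_mul D
          simpa using h4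
        exact squeeze_zero (fun _ => norm_nonneg _) (fun N => hUb N _) h3
      have h5 := h2.add (hU (T x))
      simp only [map_sub, sub_add_cancel, zero_add] at h5
      exact h5
    have h6 : Tendsto (fun N => Ul hp0 hpt N (Tl hp0 hpt N x)) atTop (𝓝 x) := by
      simp only [Ul_Tl]
      exact (Pn_tendsto hp0 hpt x.1).prodMk_nhds (Pn_tendsto hp0 hpt x.2)
    exact tendsto_nhds_unique h1 h6
  have hTU : ∀ x, T (U x) = x := by
    intro x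
    have h1 : Tendsto (fun N => Tl hp0 hpt N (Ul hp0 hpt N x)) atTop (𝓝 (T (U x))) := by
      have h2 : Tendsto (fun N => Tl hp0 hpt N (Ul hp0 hpt N x - U x)) atTop (𝓝 0) := by
        rw [tendsto_zero_iff_norm_tendsto_zero]
        have h3 : Tendsto (fun N => C * ‖Ul hp0 hpt N x - U x‖) atTop (𝓝 0) := by
          have h4 := ((hU x).sub_const (U x)).norm.const_mul C
          simpa using h4
        exact squeeze_zero (fun _ => norm_nonneg _) (fun N => hTb N _) h3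
      have h5 := h2.add (hT (U x))
      simp only [map_sub, sub_add_cancel, zero_add] at h5
      exact h5
    have h6 : Tendsto (fun N => Tl hp0 hpt N (Ul hp0 hpt N x)) atTop (𝓝 x) := by
      simp only [Tl_Ul]
      exact (tendsto_add_atTop_iff_nat 1).mpr (Pn_tendsto hp0 hpt x)
    exact tendsto_nhds_unique h1 h6
  exact ⟨ContinuousLinearEquiv.equivOfInverse T U hUT hTU, hT⟩

end Pool.Agent.LibHaar
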