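import Mathlib
import Pool.Agent.LibHaar.Iso

set_option autoImplicit false

namespace Pool.Agent.LibHaar

open Finset MeasureTheory Real Filter
open scoped ENNReal NNReal Topology

/-- dyadic approximation of the coordinate function -/
noncomputable def qf (N : ℕ) (x : ℝ) : ℝ := (⌊2 ^ N * x⌋₊ : ℝ) / 2 ^ N

theorem measurable_qf (N : ℕ) : Measurable (qf N) := by
  unfold qf
  exact (measurable_from_top.comp (Nat.measurable_floor.comp (measurable_const.mul measurable_id))).div_const _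

theorem qf_le {N : ℕ} {x : ℝ} (h0 : 0 ≤ x) : qf N x ≤ x := by
  have h2 : (0 : ℝ) < 2 ^ N := by positivity
  rw [qf, div_le_iff₀ h2]
  have := Nat.floor_le (show 0 ≤ 2 ^ N * x by positivity)
  linarith

theorem le_qf {N : ℕ} {x : ℝ} : x - 1 / 2 ^ N ≤ qf N x := by
  have h2 : (0 : ℝ) < 2 ^ N := by positivity
  rw [qf, le_div_iff₀ h2, sub_mul, one_div_mul_cancel h2.ne']
  have := Nat.lt_floor_add_one (2 ^ N * x)
  linarith

theorem qf_nonneg {N : ℕ} {x : ℝ} : 0 ≤ qf N x := by unfold qf; positivity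

variable {p : ℝ≥0∞}

theorem ae_mem : ∀ᵐ x ∂mu, x ∈ Set.Icc (0 : ℝ) 1 := ae_restrict_mem measurableSet_Icc

theorem memLp_q (N : ℕ) (f : Lp ℂ p mu) : MemLp (fun x => (qf N x : ℂ) * f x) p mu := by
  refine (Lp.memLp f).of_le (((Complex.measurable_ofReal.comp (measurable_qf N)).aestronglyMeasurable).mul
    (Lp.memLp f).1) ?_
  filter_upwards [ae_mem] with x hx
  rw [norm_mul, Complex.norm_real, Real.norm_of_nonneg qf_nonneg]
  have := qf_le (N := N) hx.1
  have h1 := hx.2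
  calc qf N x * ‖f x‖ ≤ 1 * ‖f x‖ := by gcongr; linarith
    _ = _ := one_mul _

/-- multiplication by the dyadic approximation -/
noncomputable def Qn (N : ℕ) (f : Lp ℂ p mu) : Lp ℂ p mu := (memLp_q N f).toLp _

theorem coeFn_Qn (N : ℕ) (f : Lp ℂ p mu) : (Qn N f : ℝ → ℂ) =ᵐ[mu] fun x => (qf N x : ℂ) * f x :=
  MemLp.coeFn_toLp _

variable [hp1 : Fact (1 ≤ p)]

omit hp1 in
theorem norm_Qn_sub_le (N : ℕ) (f g : Lp ℂ p mu) : ‖Qn N f - Qn N g‖ ≤ ‖f - g‖ := by
  refine Lp.norm_le_norm_of_ae_le ?_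
  filter_upwards [ae_mem, Lp.coeFn_sub (Qn N f) (Qn N g), Lp.coeFn_sub f g, coeFn_Qn N f, coeFn_Qn N g]
    with x hx h1 h2 h3 h4
  rw [h1, h2, Pi.sub_apply, Pi.sub_apply, h3, h4, ← mul_sub, norm_mul, Complex.norm_real,
    Real.norm_of_nonneg qf_nonneg]
  have := qf_le (N := N) hx.1
  have h1 := hx.2
  calc qf N x * ‖f x - g x‖ ≤ 1 * ‖f x - g x‖ := by gcongr; linarith
    _ = _ := one_mul _

omit hp1 in
theorem An_Qn (N j : ℕ) (f : Lp ℂ p mu) :
    An (N + j) (Qn N f) = fun k => (((k / 2 ^ j : ℕ) : ℝ) / 2 ^ N) • An (N + j) f k := by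
  ext k
  rw [An, ave_congr (coeFn_Qn N f), ave, An, ave, smul_comm]
  congr 1
  rw [← integral_smul]
  refine setIntegral_congr_fun (measurableSet_J _ _) fun x hx => ?_
  have h1 := floor_of_mem_J hx
  have h2 : ⌊2 ^ N * x⌋₊ = k / 2 ^ j := by
    rw [← h1, ← Nat.floor_div_natCast]
    congr 1
    push_cast
    rw [pow_add]; field_simp
  simp only [qf, h2, Complex.real_smul]

omit hp1 in
theorem Bn_smul_q (hp0 : p ≠ 0) (hpt : p ≠ ∞) (N j : ℕ) (c : ℕ → ℂ) :
    Bn hp0 hpt (N + j) (fun i => (((i / 2 ^ j : ℕ) : ℝ) / 2 ^ N) • c i) = Qn N (Bn hp0 hpt (N + j) c) := by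
  apply Lp.ext
  filter_upwards [coeFn_Bn hp0 hpt (N + j) (fun i => (((i / 2 ^ j : ℕ) : ℝ) / 2 ^ N) • c i),
    coeFn_Qn N (Bn hp0 hpt (N + j) c), coeFn_Bn hp0 hpt (N + j) c] with x h1 h2 h3
  rw [h1, h2, h3]
  simp only [stp, qf]
  have h4 : ⌊2 ^ N * x⌋₊ = ⌊2 ^ (N + j) * x⌋₊ / 2 ^ j := by
    rw [← Nat.floor_div_natCast]
    congr 1
    push_cast
    rw [pow_add]; field_simp
  rw [← h4, Complex.real_smul]

theorem avg_iter_An (N j : ℕ) (f : Lp ℂ p mu) : avg^[j] (An (N + j) f) = An N f := by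
  induction j with
  | zero => rfl
  | succ j ih =>
    rw [Function.iterate_succ_apply, ← add_assoc, avg_An, ih]

theorem Tl_Qn (hp0 : p ≠ 0) (hpt : p ≠ ∞) (N j : ℕ) (f g : Lp ℂ p mu) (hf : An N f = 0)
    (hg : An N g = 0) :
    Tl hp0 hpt (N + j) (Qn N f, Qn N g) = Qn N (Tl hp0 hpt (N + j) (f, g)) := by
  rw [Tl_apply, Tl_apply]
  simp only []
  rw [An_Qn, An_Qn, tarr_local (fun k => (k : ℝ) / 2 ^ N) N j _ _
    ((avg_iter_An N j f).trans hf) ((avg_iter_An N j g).trans hg), add_assoc]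
  exact Bn_smul_q hp0 hpt N (j + 1) _

theorem S_Qn (hp0 : p ≠ 0) (hpt : p ≠ ∞) (S : (Lp ℂ p mu × Lp ℂ p mu) → Lp ℂ p mu)
    (hS : ∀ x, Tendsto (fun N => Tl hp0 hpt N x) atTop (𝓝 (S x))) (N : ℕ) (f g : Lp ℂ p mu)
    (hf : An N f = 0) (hg : An N g = 0) : S (Qn N f, Qn N g) = Qn N (S (f, g)) := by
  have h1 : Tendsto (fun j => Tl hp0 hpt (N + j) (Qn N f, Qn N g)) atTop (𝓝 (S (Qn N f, Qn N g))) :=
    (hS (Qn N f, Qn N g)).comp (tendsto_add_atTop_nat N |>.congr fun j => by ring)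
  have h2 : Tendsto (fun j => Tl hp0 hpt (N + j) (Qn N f, Qn N g)) atTop (𝓝 (Qn N (S (f, g)))) := by
    simp only [Tl_Qn hp0 hpt N _ f g hf hg]
    have h3 : Tendsto (fun j => Tl hp0 hpt (N + j) (f, g)) atTop (𝓝 (S (f, g))) :=
      (hS (f, g)).comp (tendsto_add_atTop_nat N |>.congr fun j => by ring)
    rw [tendsto_iff_norm_sub_tendsto_zero] at h3 ⊢
    exact squeeze_zero (fun _ => norm_nonneg _) (fun j => norm_Qn_sub_le N _ _) h3
  exact tendsto_nhds_unique h1 h2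

theorem norm_mul_sub_Qn_le (M : Lp ℂ p mu →L[ℂ] Lp ℂ p mu)
    (hM : ∀ f : Lp ℂ p mu, (M f : ℝ → ℂ) =ᵐ[mu] fun x => (x : ℂ) * f x) (N : ℕ) (f : Lp ℂ p mu) :
    ‖M f - Qn N f‖ ≤ 1 / 2 ^ N * ‖f‖ := by
  refine Lp.norm_le_mul_norm_of_ae_le_mul ?_
  filter_upwards [ae_mem, Lp.coeFn_sub (M f) (Qn N f), hM f, coeFn_Qn N f] with x hx h1 h2 h3
  rw [h1, Pi.sub_apply, h2, h3, ← sub_mul, norm_mul, ← Complex.ofReal_sub, Complex.norm_real,
    Real.norm_eq_abs, abs_of_nonneg (by linarith [qf_le (N := N) hx.1])]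
  gcongr
  linarith [le_qf (N := N) (x := x)]

/-- `P_N` as a compact operator -/
theorem isCompactOperator_Pn (hp0 : p ≠ 0) (hpt : p ≠ ∞) (N : ℕ) :
    ∃ P : Lp ℂ p mu →L[ℂ] Lp ℂ p mu, IsCompactOperator P ∧ ∀ f, P f = Pn hp0 hpt N f := by
  let P : Lp ℂ p mu →L[ℂ] Lp ℂ p mu :=
    (LinearMap.mk ⟨fun f => Pn hp0 hpt N f, fun f g => Pn_add hp0 hpt N f g⟩
      (fun c f => Pn_smul hp0 hpt N c f)).mkContinuous 1 (fun f => by
        rw [one_mul]; exact norm_Pn_le hp0 hpt N f)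
  refine ⟨P, ?_, fun f => rfl⟩
  -- factor through a finite-dimensional space
  let V : Submodule ℂ (Lp ℂ p mu) := Submodule.span ℂ
    ((fun k : ℕ => Bn hp0 hpt N (Pi.single k 1)) '' (Set.Iio (2 ^ N)))
  have : FiniteDimensional ℂ V := FiniteDimensional.span_of_finite ℂ ((Set.finite_Iio _).image _)
  have hV : ∀ f, P f ∈ V := by
    intro f
    show Bn hp0 hpt N (An N f) ∈ V
    have h1 : Bn hp0 hpt N (An N f) = ∑ k ∈ range (2 ^ N), An N f k • Bn hp0 hpt N (Pi.single k 1) := by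
      have h2 : ∀ s : Finset ℕ, Bn hp0 hpt N (∑ k ∈ s, An N f k • Pi.single k 1) =
          ∑ k ∈ s, An N f k • Bn hp0 hpt N (Pi.single k 1) := by
        intro s
        induction s using Finset.induction_on with
        | empty =>
          rw [sum_empty, sum_empty]
          have := Bn_smul hp0 hpt N 0 (0 : ℕ → ℂ)
          simpa using this
        | insert a s ha ih => rw [sum_insert ha, sum_insert ha, Bn_add, Bn_smul, ih]
      rw [← h2]
      refine Bn_congr hp0 hpt N fun k hk => ?_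
      rw [Finset.sum_apply, Finset.sum_eq_single k]
      · simp
      · intro b _ hb; simp [hb.symm]
      · intro h; exact absurd (mem_range.mpr hk) h
    rw [h1]
    refine Submodule.sum_mem _ fun k hk => Submodule.smul_mem _ _ (Submodule.subset_span ⟨k, mem_range.mp hk, rfl⟩)
  let P' : Lp ℂ p mu →L[ℂ] V := P.codRestrict V hV
  have h3 : IsCompactOperator P' := by
    have : ProperSpace V := FiniteDimensional.proper_rclike ℂ V
    exact isCompactOperator_of_locallyCompactSpace_dom P'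
  exact h3.clm_comp V.subtypeL

theorem compact_commutator (hp0 : p ≠ 0) (hpt : p ≠ ∞) (M : Lp ℂ p mu →L[ℂ] Lp ℂ p mu)
    (hM : ∀ f : Lp ℂ p mu, (M f : ℝ → ℂ) =ᵐ[mu] fun x => (x : ℂ) * f x)
    (S : (Lp ℂ p mu × Lp ℂ p mu) →L[ℂ] Lp ℂ p mu)
    (hS : ∀ x, Tendsto (fun N => Tl hp0 hpt N x) atTop (𝓝 (S x))) :
    IsCompactOperator (S.comp (M.prodMap M) - M.comp S) := by
  set R := S.comp (M.prodMap M) - M.comp S with hR
  choose P hPc hP using fun N => isCompactOperator_Pn (p := p) hp0 hpt N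
  let F : ℕ → (Lp ℂ p mu × Lp ℂ p mu) →L[ℂ] Lp ℂ p mu := fun N => R.comp ((P N).prodMap (P N))
  have hF : ∀ N, IsCompactOperator (F N) := by
    intro N
    refine IsCompactOperator.clm_comp (g := R) ?_
    have e : ((P N).prodMap (P N) : (Lp ℂ p mu × Lp ℂ p mu) →L[ℂ] (Lp ℂ p mu × Lp ℂ p mu)) =
        (ContinuousLinearMap.inl ℂ (Lp ℂ p mu) (Lp ℂ p mu)).comp
          ((P N).comp (ContinuousLinearMap.fst ℂ (Lp ℂ p mu) (Lp ℂ p mu))) +
        (ContinuousLinearMap.inr ℂ (Lp ℂ p mu) (Lp ℂ p mu)).comp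
          ((P N).comp (ContinuousLinearMap.snd ℂ (Lp ℂ p mu) (Lp ℂ p mu))) := by
      refine ContinuousLinearMap.ext fun x => ?_
      refine Prod.ext ?_ ?_ <;> simp
    rw [e]
    refine IsCompactOperator.add ?_ ?_
    · exact ((hPc N).comp_clm (ContinuousLinearMap.fst ℂ (Lp ℂ p mu) (Lp ℂ p mu))).clm_comp
        (ContinuousLinearMap.inl ℂ (Lp ℂ p mu) (Lp ℂ p mu))
    · exact ((hPc N).comp_clm (ContinuousLinearMap.snd ℂ (Lp ℂ p mu) (Lp ℂ p mu))).clm_comp
        (ContinuousLinearMap.inr ℂ (Lp ℂ p mu) (Lp ℂ p mu))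
  have hlim : Tendsto F atTop (𝓝 R) := by
    rw [tendsto_iff_norm_sub_tendsto_zero]
    have hb : ∀ N, ‖F N - R‖ ≤ 4 * ‖S‖ * (1 / 2 ^ N) := by
      intro N
      refine ContinuousLinearMap.opNorm_le_bound _ (by positivity) fun x => ?_
      have h1 : (F N - R) x = - R (x.1 - Pn hp0 hpt N x.1, x.2 - Pn hp0 hpt N x.2) := by
        have h2 : (x.1 - Pn hp0 hpt N x.1, x.2 - Pn hp0 hpt N x.2) =
            x - (Pn hp0 hpt N x.1, Pn hp0 hpt N x.2) := rfl
        rw [h2, map_sub, neg_sub]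
        show R ((P N).prodMap (P N) x) - R x = _
        congr 2
        refine Prod.ext (hP N x.1) (hP N x.2)
      rw [h1, norm_neg]
      set f := x.1 - Pn hp0 hpt N x.1 with hf
      set g := x.2 - Pn hp0 hpt N x.2 with hg
      have hf0 : An N f = 0 := by rw [hf, An_sub, Bn_inj, sub_self]
      have hg0 : An N g = 0 := by rw [hg, An_sub, Bn_inj, sub_self]
      have hfn : ‖f‖ ≤ 2 * ‖x‖ := by
        have := norm_sub_le x.1 (Pn hp0 hpt N x.1)
        have h5 := norm_Pn_le hp0 hpt N x.1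
        have h6 := norm_fst_le x
        linarith
      have hgn : ‖g‖ ≤ 2 * ‖x‖ := by
        have := norm_sub_le x.2 (Pn hp0 hpt N x.2)
        have h5 := norm_Pn_le hp0 hpt N x.2
        have h6 := norm_snd_le x
        linarith
      have hSQ := S_Qn hp0 hpt S hS N f g hf0 hg0
      have h7 : R (f, g) = S (M f - Qn N f, M g - Qn N g) - (M (S (f, g)) - Qn N (S (f, g))) := by
        have h8 : (M f - Qn N f, M g - Qn N g) = (M f, M g) - (Qn N f, Qn N g) := rfl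
        rw [h8, map_sub, hSQ]
        show S (M f, M g) - M (S (f, g)) = _
        abel
      rw [h7]
      have h9 : ‖((M f - Qn N f, M g - Qn N g) : Lp ℂ p mu × Lp ℂ p mu)‖ ≤ 1 / 2 ^ N * (2 * ‖x‖) := by
        rw [Prod.norm_def, max_le_iff]
        constructor
        · refine (norm_mul_sub_Qn_le M hM N f).trans ?_
          gcongr
        · refine (norm_mul_sub_Qn_le M hM N g).trans ?_
          gcongr
      have h10 : ‖S (f, g)‖ ≤ ‖S‖ * (2 * ‖x‖) := by
        refine (S.le_opNorm _).trans ?_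
        gcongr
        rw [Prod.norm_def, max_le_iff]
        exact ⟨hfn, hgn⟩
      calc ‖S (M f - Qn N f, M g - Qn N g) - (M (S (f, g)) - Qn N (S (f, g)))‖
          ≤ ‖S (M f - Qn N f, M g - Qn N g)‖ + ‖M (S (f, g)) - Qn N (S (f, g))‖ := norm_sub_le _ _
        _ ≤ ‖S‖ * (1 / 2 ^ N * (2 * ‖x‖)) + 1 / 2 ^ N * (‖S‖ * (2 * ‖x‖)) := by
            gcongr
            · refine (S.le_opNorm _).trans ?_
              gcongr
            · refine (norm_mul_sub_Qn_le M hM N _).trans ?_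
              gcongr
        _ = _ := by ring
    have h0 : Tendsto (fun N : ℕ => 4 * ‖S‖ * (1 / 2 ^ N)) atTop (𝓝 0) := by
      have h1 : Tendsto (fun N : ℕ => ((1 : ℝ) / 2) ^ N) atTop (𝓝 0) :=
        tendsto_pow_atTop_nhds_zero_of_lt_one (by norm_num) (by norm_num)
      have h2 := h1.const_mul (4 * ‖S‖)
      rw [mul_zero] at h2
      refine h2.congr fun N => ?_
      rw [one_div_pow]
    exact squeeze_zero (fun _ => norm_nonneg _) hb h0
  exact isCompactOperator_of_tendsto hlim (Eventually.of_forall hF)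

/-- main result in library form -/
theorem main (hp1' : 1 < p) (hpt : p ≠ ∞) (M : Lp ℂ p mu →L[ℂ] Lp ℂ p mu)
    (hM : ∀ f : Lp ℂ p mu, (M f : ℝ → ℂ) =ᵐ[mu] fun x => (x : ℂ) * f x) :
    ∃ K : Lp ℂ p mu →L[ℂ] Lp ℂ p mu, IsCompactOperator K ∧
      ∃ S : (Lp ℂ p mu × Lp ℂ p mu) ≃L[ℂ] Lp ℂ p mu,
        (M + K).comp S.toContinuousLinearMap = S.toContinuousLinearMap.comp (M.prodMap M) := by
  have hp0 : p ≠ 0 := (lt_trans zero_lt_one hp1').ne'
  have hP : 1 < p.toReal := by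
    rw [← ENNReal.toReal_one]
    exact (ENNReal.toReal_lt_toReal ENNReal.one_ne_top hpt).mpr hp1'
  obtain ⟨S, hS⟩ := exists_iso hp0 hpt hP
  have hc := compact_commutator hp0 hpt M hM S.toContinuousLinearMap hS
  refine ⟨(S.toContinuousLinearMap.comp (M.prodMap M) - M.comp S.toContinuousLinearMap).comp
    S.symm.toContinuousLinearMap, hc.comp_clm _, S, ?_⟩
  refine ContinuousLinearMap.ext fun x => ?_
  simp

end Pool.Agent.LibHaar
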